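import Mathlib

/-!
# Square classes in a finite prime field, and the roots of the two quadratic polynomials
-/

set_option autoImplicit false

namespace Pool.Agent.V8H12.X49

open scoped Classical in
/-- `0` for the squares and `1` for the others -/
noncomputable def lam {F : Type} [Field F] (x : F) : ZMod 2 := if IsSquare x then 0 else 1

section
variable {F : Type} [Field F]

theorem lam_zero_iff (x : F) : lam x = 0 ↔ IsSquare x := by
  unfold lam
  split_ifs with h
  · simp [h]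
  · simp [h]

theorem lam_of_sq {x : F} (h : IsSquare x) : lam x = 0 := (lam_zero_iff x).2 h

theorem lam_eq_one {x : F} (h : ¬ IsSquare x) : lam x = 1 := by
  unfold lam
  rw [if_neg h]

theorem lam_mul [Fintype F] {x y : F} (hx : x ≠ 0) (hy : y ≠ 0) :
    lam (x * y) = lam x + lam y := by
  have h11 : (1 : ZMod 2) + 1 = 0 := by decide
  by_cases h1 : IsSquare x
  · by_cases h2 : IsSquare y
    · rw [lam_of_sq h1, lam_of_sq h2, lam_of_sq (h1.mul h2), add_zero]
    · have h3 : ¬ IsSquare (x * y) := by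
        intro h
        apply h2
        have h4 := h.div h1
        rwa [mul_div_cancel_left₀ y hx] at h4
      rw [lam_of_sq h1, lam_eq_one h2, lam_eq_one h3, zero_add]
  · by_cases h2 : IsSquare y
    · have h3 : ¬ IsSquare (x * y) := by
        intro h
        apply h1
        have h4 := h.div h2
        rwa [mul_div_cancel_right₀ x hy] at h4
      rw [lam_of_sq h2, lam_eq_one h1, lam_eq_one h3, add_zero]
    · have h3 : IsSquare (x * y) := by
        by_cases hc : ringChar F = 2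
        · exact FiniteField.isSquare_of_char_two hc _
        · classical
          have e1 : quadraticChar F x = -1 := (quadraticChar_neg_one_iff_not_isSquare).2 h1
          have e2 : quadraticChar F y = -1 := (quadraticChar_neg_one_iff_not_isSquare).2 h2
          have e3 : quadraticChar F (x * y) = 1 := by
            rw [map_mul, e1, e2]
            norm_num
          exact (quadraticChar_one_iff_isSquare (mul_ne_zero hx hy)).1 e3
      rw [lam_of_sq h3, lam_eq_one h1, lam_eq_one h2, h11]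

theorem lam_sq (x : F) : lam (x ^ 2) = 0 := lam_of_sq ⟨x, sq x⟩

theorem lam_prod [Fintype F] {ι : Type} (S : Finset ι) (f : ι → F) (h : ∀ i ∈ S, f i ≠ 0) :
    lam (∏ i ∈ S, f i) = ∑ i ∈ S, lam (f i) := by
  classical
  induction S using Finset.induction_on with
  | empty => rw [Finset.prod_empty, Finset.sum_empty]; exact lam_of_sq ⟨1, (mul_one 1).symm⟩
  | insert a S ha ih =>
    rw [Finset.prod_insert ha, Finset.sum_insert ha,
      lam_mul (h a (Finset.mem_insert_self a S))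
        (Finset.prod_ne_zero_iff.2 fun i hi => h i (Finset.mem_insert_of_mem hi)),
      ih fun i hi => h i (Finset.mem_insert_of_mem hi)]

/-- The roots for the curve `y² = x (x² + 21 D x + 112 D²)` -/
theorem root1 (h2 : (2 : F) ≠ 0) {A δ γ : F} (hA : A ≠ 0) (hδ : δ ≠ 0) (hγ : A * γ = 112 * δ ^ 2)
    (h : ∃ t : F, A + 21 * δ * t ^ 2 + γ * t ^ 4 = 0) :
    ∃ r : F, r ^ 2 = -7 ∧ IsSquare (A * δ * r) := by
  obtain ⟨t, ht⟩ := h
  have ht0 : t ≠ 0 := by
    rintro rfl
    apply hA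
    simpa using ht
  obtain ⟨s, hs⟩ : ∃ s : F, s * t = 1 := ⟨t⁻¹, inv_mul_cancel₀ ht0⟩
  have hs0 : s ≠ 0 := left_ne_zero_of_mul_eq_one hs
  have e1 : A * s ^ 4 + 21 * δ * s ^ 2 + γ = 0 := by
    have e : (A + 21 * δ * t ^ 2 + γ * t ^ 4) * s ^ 4 =
        A * s ^ 4 + 21 * δ * (s * t) ^ 2 * s ^ 2 + γ * (s * t) ^ 4 := by ring
    rw [ht, hs] at e
    linear_combination -e
  have e2 : (A * s ^ 2) ^ 2 + 21 * δ * (A * s ^ 2) + 112 * δ ^ 2 = 0 := by
    linear_combination A * e1 - hγ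
  obtain ⟨r, hr⟩ : ∃ r : F, δ * r = 2 * (A * s ^ 2) + 21 * δ :=
    ⟨(2 * (A * s ^ 2) + 21 * δ) / δ, by field_simp⟩
  have hr2 : r ^ 2 = -7 := by
    have h3 : δ ^ 2 * (r ^ 2 + 7) = 0 := by
      linear_combination (δ * r + 2 * (A * s ^ 2) + 21 * δ) * hr + 4 * e2
    rcases mul_eq_zero.1 h3 with h | h
    · exact absurd (pow_eq_zero_iff (by norm_num) |>.1 h) hδ
    · linear_combination h
  refine ⟨r, hr2, ⟨δ * r * (-3 - r) / (2 * s), ?_⟩⟩
  have e3 : (-3 - r) ^ 2 = 2 + 6 * r := by linear_combination hr2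
  have goal' : A * δ * r * (2 * s) ^ 2 = (δ * r * (-3 - r)) ^ 2 := by
    have : (δ * r * (-3 - r)) ^ 2 = δ * r * (δ * r * (2 + 6 * r)) := by
      rw [mul_pow, e3]; ring
    rw [this]
    linear_combination 2 * δ * r * (- hr) - 6 * δ ^ 2 * r * hr2
  have h2s : 2 * s ≠ 0 := mul_ne_zero h2 hs0
  rw [div_mul_div_comm, eq_div_iff (mul_ne_zero h2s h2s)]
  linear_combination goal'

/-- The roots for the curve `y² = x (x² - 42 D x - 7 D²)` -/
theorem root2 (h2 : (2 : F) ≠ 0) {i : F} (hi : i ^ 2 = -1) {A δ γ : F} (hA : A ≠ 0) (hδ : δ ≠ 0)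
    (hγ : A * γ = -7 * δ ^ 2) (h : ∃ t : F, A + -42 * δ * t ^ 2 + γ * t ^ 4 = 0) :
    ∃ r : F, r ^ 2 = -7 ∧ IsSquare (A * δ * r) := by
  obtain ⟨t, ht⟩ := h
  have ht0 : t ≠ 0 := by
    rintro rfl
    apply hA
    simpa using ht
  obtain ⟨s, hs⟩ : ∃ s : F, s * t = 1 := ⟨t⁻¹, inv_mul_cancel₀ ht0⟩
  have hs0 : s ≠ 0 := left_ne_zero_of_mul_eq_one hs
  have e1 : A * s ^ 4 - 42 * δ * s ^ 2 + γ = 0 := by
    have e : (A + -42 * δ * t ^ 2 + γ * t ^ 4) * s ^ 4 =
        A * s ^ 4 - 42 * δ * (s * t) ^ 2 * s ^ 2 + γ * (s * t) ^ 4 := by ring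
    rw [ht, hs] at e
    linear_combination -e
  have e2 : (A * s ^ 2) ^ 2 - 42 * δ * (A * s ^ 2) - 7 * δ ^ 2 = 0 := by
    linear_combination A * e1 - hγ
  obtain ⟨w, hw⟩ : ∃ w : F, 8 * δ * w = A * s ^ 2 - 21 * δ := by
    have h8 : (8 : F) * δ ≠ 0 := mul_ne_zero (by
      have : (8 : F) = 2 ^ 3 := by norm_num
      rw [this]
      exact pow_ne_zero 3 h2) hδ
    exact ⟨(8 * δ)⁻¹ * (A * s ^ 2 - 21 * δ), by rw [mul_inv_cancel_left₀ h8]⟩
  have hw2 : w ^ 2 = 7 := by
    have h3 : (8 * δ) ^ 2 * (w ^ 2 - 7) = 0 := by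
      linear_combination (8 * δ * w + (A * s ^ 2 - 21 * δ)) * hw + e2
    rcases mul_eq_zero.1 h3 with h | h
    · exfalso
      have h4 := pow_eq_zero_iff (by norm_num : (2 : ℕ) ≠ 0) |>.1 h
      rcases mul_eq_zero.1 h4 with h5 | h5
      · have : (8 : F) = 2 ^ 3 := by norm_num
        rw [this] at h5
        exact h2 (pow_eq_zero_iff (by norm_num) |>.1 h5)
      · exact hδ h5
    · linear_combination h
  refine ⟨i * w, by rw [mul_pow, hi, hw2]; ring, ⟨δ * (i * w) * (3 + w) * (1 - i) / (2 * s), ?_⟩⟩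
  have h2s : 2 * s ≠ 0 := mul_ne_zero h2 hs0
  rw [div_mul_div_comm, eq_div_iff (mul_ne_zero h2s h2s)]
  -- A δ i w (2 s)² = (δ i w (3 + w) (1 - i))²
  have k1 : (1 - i) ^ 2 = -2 * i := by linear_combination hi
  have k2 : (3 + w) ^ 2 = 16 + 6 * w := by linear_combination hw2
  have k3 : (i * w) ^ 2 = -7 := by rw [mul_pow, hi, hw2]; ring
  have k4 : A * s ^ 2 = 21 * δ + 8 * δ * w := by linear_combination -hw
  have e : δ * (i * w) * (3 + w) * (1 - i) * (δ * (i * w) * (3 + w) * (1 - i)) =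
      δ ^ 2 * (i * w) ^ 2 * (3 + w) ^ 2 * (1 - i) ^ 2 := by ring
  rw [e, k1, k2, k3]
  have e' : A * δ * (i * w) * (2 * s * (2 * s)) = 4 * δ * (i * w) * (A * s ^ 2) := by ring
  rw [e', k4]
  linear_combination 32 * δ ^ 2 * i * hw2

end

end Pool.Agent.V8H12.X49
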