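import Mathlib

/-!
# Local conditions for the quartics of the descent by 2-isogenies
-/

set_option autoImplicit false

namespace Pool.Agent.V8H12.X49

/-- the quartic `N ^ 2 = α M ^ 4 + β M ^ 2 e ^ 2 + γ e ^ 4` has a nontrivial solution in `K` -/
def Sol (K : Type) [Field K] (α β γ : ℤ) : Prop :=
  ∃ N M e : K, (M ≠ 0 ∨ e ≠ 0) ∧
    N ^ 2 = (α : K) * M ^ 4 + (β : K) * M ^ 2 * e ^ 2 + (γ : K) * e ^ 4

theorem Sol.swap {K : Type} [Field K] {α β γ : ℤ} (h : Sol K α β γ) : Sol K γ β α := by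
  obtain ⟨N, M, e, h1, h2⟩ := h
  exact ⟨N, e, M, h1.symm, by rw [h2]; ring⟩

/-- no real solutions -/
theorem not_real {α β γ : ℤ} (hα : α < 0) (hd : β ^ 2 < 4 * α * γ) : ¬ Sol ℝ α β γ := by
  rintro ⟨N, M, e, h1, h2⟩
  have ha : (α : ℝ) < 0 := by exact_mod_cast hα
  have hd' : (β : ℝ) ^ 2 < 4 * α * γ := by exact_mod_cast hd
  have key : 4 * (α : ℝ) * N ^ 2 = (2 * α * M ^ 2 + β * e ^ 2) ^ 2 +
      (4 * α * γ - (β : ℝ) ^ 2) * e ^ 4 := by rw [h2]; ring
  have h3 : 4 * (α : ℝ) * N ^ 2 ≤ 0 := by nlinarith [sq_nonneg N]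
  have h4 : 0 ≤ (4 * α * γ - (β : ℝ) ^ 2) * e ^ 4 := mul_nonneg (by linarith) (by positivity)
  have h5 : (2 * (α : ℝ) * M ^ 2 + β * e ^ 2) ^ 2 = 0 := le_antisymm (by linarith) (sq_nonneg _)
  have h6 : (4 * α * γ - (β : ℝ) ^ 2) * e ^ 4 = 0 := le_antisymm (by nlinarith) h4
  have he : e = 0 := by
    rcases mul_eq_zero.1 h6 with h | h
    · linarith
    · exact pow_eq_zero_iff (by norm_num) |>.1 h
  rw [he] at h5
  have hM : M = 0 := by
    have h7 := pow_eq_zero_iff (by norm_num : (2 : ℕ) ≠ 0) |>.1 h5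
    have h8 : 2 * (α : ℝ) * M ^ 2 = 0 := by simpa using h7
    rcases mul_eq_zero.1 h8 with h | h
    · rcases mul_eq_zero.1 h with h | h
      · norm_num at h
      · linarith
    · exact pow_eq_zero_iff (by norm_num) |>.1 h
  rcases h1 with h | h
  · exact h hM
  · exact h he

section padic

variable {p : ℕ} [hp : Fact p.Prime]

theorem sq_int {n : ℚ_[p]} {w : ℤ_[p]} (h : n ^ 2 = w) : ∃ m : ℤ_[p], m ^ 2 = w := by
  have h1 : ‖n‖ ≤ 1 := by
    have h2 : ‖n‖ ^ 2 ≤ 1 := by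
      rw [← norm_pow, h]
      exact w.norm_le_one
    nlinarith [norm_nonneg n]
  refine ⟨⟨n, h1⟩, ?_⟩
  apply Subtype.ext
  rw [← h]
  rfl

theorem prim {α β γ : ℤ} (h : Sol ℚ_[p] α β γ) :
    (∃ t m : ℤ_[p], m ^ 2 = α + β * t ^ 2 + γ * t ^ 4) ∨
    (∃ s m : ℤ_[p], ‖s‖ < 1 ∧ m ^ 2 = α * s ^ 4 + β * s ^ 2 + γ) := by
  obtain ⟨N, M, e, h1, h2⟩ := h
  rcases le_or_gt ‖e‖ ‖M‖ with h3 | h3
  · left
    have hM : M ≠ 0 := by
      rintro rfl
      rw [norm_zero] at h3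
      rcases h1 with h | h
      · exact h rfl
      · exact h (norm_le_zero_iff.1 h3)
    have ht : ‖e / M‖ ≤ 1 := by
      rw [norm_div]
      exact div_le_one_of_le₀ h3 (norm_nonneg _)
    obtain ⟨t, ht'⟩ : ∃ t : ℤ_[p], (t : ℚ_[p]) = e / M := ⟨⟨e / M, ht⟩, rfl⟩
    obtain ⟨m, hm⟩ := sq_int (p := p) (n := N / M ^ 2) (w := α + β * t ^ 2 + γ * t ^ 4) (by
        push_cast
        rw [div_pow, h2, ht']
        field_simp)
    exact ⟨t, m, hm⟩
  · right
    have he : e ≠ 0 := by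
      rintro rfl
      rw [norm_zero] at h3
      exact absurd h3 (not_lt.2 (norm_nonneg _))
    have ht : ‖M / e‖ < 1 := by
      rw [norm_div]
      exact (div_lt_one (norm_pos_iff.2 he)).2 h3
    obtain ⟨s, hs⟩ : ∃ s : ℤ_[p], (s : ℚ_[p]) = M / e := ⟨⟨M / e, ht.le⟩, rfl⟩
    obtain ⟨m, hm⟩ := sq_int (p := p) (n := N / e ^ 2) (w := α * s ^ 4 + β * s ^ 2 + γ) (by
        push_cast
        rw [div_pow, h2, hs]
        field_simp)
    refine ⟨s, m, ?_, hm⟩
    rw [PadicInt.norm_def, hs]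
    exact ht

theorem cast_p : PadicInt.toZMod (p : ℤ_[p]) = 0 := by simp

theorem p_ne : (p : ℤ_[p]) ≠ 0 := by exact_mod_cast hp.out.ne_zero

theorem p_prime : Prime (p : ℤ_[p]) := PadicInt.prime_p

/-- `p` does not divide `α` in the applications -/
theorem locA {α β γ γ' : ℤ} (hβ : (p : ℤ) ∣ β) (hγ : γ = (p : ℤ) ^ 2 * γ')
    (h : Sol ℚ_[p] α β γ) : IsSquare (α : ZMod p) ∨ IsSquare (γ' : ZMod p) := by
  obtain ⟨β', rfl⟩ := hβ
  subst hγ
  rcases prim h with ⟨t, m, h1⟩ | ⟨s, m, h1, h2⟩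
  · left
    have h3 := congrArg PadicInt.toZMod h1
    simp only [map_pow, map_add, map_mul, map_intCast, map_natCast, Int.cast_mul, Int.cast_pow,
      Int.cast_natCast, CharP.cast_eq_zero, zero_mul, add_zero, ne_eq, OfNat.ofNat_ne_zero,
      not_false_eq_true, zero_pow] at h3
    exact ⟨PadicInt.toZMod m, by rw [← h3]; ring⟩
  · right
    obtain ⟨s', rfl⟩ := (PadicInt.norm_lt_one_iff_dvd s).1 h1
    have h3 : (p : ℤ_[p]) ∣ m := by
      refine p_prime.dvd_of_dvd_pow (n := 2) ?_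
      rw [h2]
      push_cast
      exact ⟨(p : ℤ_[p]) * (α * p ^ 2 * s' ^ 4 + p * β' * s' ^ 2 + γ'), by ring⟩
    obtain ⟨m', rfl⟩ := h3
    have h4 : m' ^ 2 = α * p ^ 2 * s' ^ 4 + p * β' * s' ^ 2 + γ' := by
      have h5 : (p : ℤ_[p]) ^ 2 * m' ^ 2 =
          (p : ℤ_[p]) ^ 2 * (α * p ^ 2 * s' ^ 4 + p * β' * s' ^ 2 + γ') := by
        have h6 := h2
        push_cast at h6
        linear_combination h6
      exact mul_left_cancel₀ (pow_ne_zero 2 p_ne) h5
    have h7 := congrArg PadicInt.toZMod h4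
    simp only [map_pow, map_add, map_mul, map_intCast, map_natCast, CharP.cast_eq_zero, zero_mul,
      add_zero, zero_add, ne_eq, OfNat.ofNat_ne_zero, not_false_eq_true, zero_pow, mul_zero] at h7
    exact ⟨PadicInt.toZMod m', by rw [← h7]; ring⟩

theorem locB {α β γ α' β' γ' : ℤ} (hα : α = p * α') (hβ : β = p * β') (hγ : γ = p * γ')
    (h0 : (γ' : ZMod p) ≠ 0) (h : Sol ℚ_[p] α β γ) :
    ∃ t : ZMod p, (α' : ZMod p) + β' * t ^ 2 + γ' * t ^ 4 = 0 := by
  subst hα hβ hγ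
  rcases prim h with ⟨t, m, h1⟩ | ⟨s, m, h1, h2⟩
  · have h3 : (p : ℤ_[p]) ∣ m := by
      refine p_prime.dvd_of_dvd_pow (n := 2) ?_
      rw [h1]
      push_cast
      exact ⟨α' + β' * t ^ 2 + γ' * t ^ 4, by ring⟩
    obtain ⟨m', rfl⟩ := h3
    have h4 : p * m' ^ 2 = α' + β' * t ^ 2 + γ' * t ^ 4 := by
      have h5 : (p : ℤ_[p]) * (p * m' ^ 2) = p * (α' + β' * t ^ 2 + γ' * t ^ 4) := by
        have h6 := h1
        push_cast at h6
        linear_combination h6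
      exact mul_left_cancel₀ p_ne h5
    have h7 := congrArg PadicInt.toZMod h4
    simp only [map_pow, map_add, map_mul, map_intCast, map_natCast, CharP.cast_eq_zero,
      zero_mul] at h7
    exact ⟨PadicInt.toZMod t, h7.symm⟩
  · exfalso
    obtain ⟨s', rfl⟩ := (PadicInt.norm_lt_one_iff_dvd s).1 h1
    have h3 : (p : ℤ_[p]) ∣ m := by
      refine p_prime.dvd_of_dvd_pow (n := 2) ?_
      rw [h2]
      push_cast
      exact ⟨α' * (p * s') ^ 4 + β' * (p * s') ^ 2 + γ', by ring⟩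
    obtain ⟨m', rfl⟩ := h3
    have h4 : p * m' ^ 2 = α' * (p * s') ^ 4 + β' * (p * s') ^ 2 + γ' := by
      have h5 : (p : ℤ_[p]) * (p * m' ^ 2) = p * (α' * (p * s') ^ 4 + β' * (p * s') ^ 2 + γ') := by
        have h6 := h2
        push_cast at h6
        linear_combination h6
      exact mul_left_cancel₀ p_ne h5
    have h7 := congrArg PadicInt.toZMod h4
    simp only [map_pow, map_add, map_mul, map_intCast, map_natCast, CharP.cast_eq_zero,
      zero_mul, ne_eq, OfNat.ofNat_ne_zero, not_false_eq_true, zero_pow, mul_zero, zero_add] at h7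
    exact h0 h7.symm

theorem locC {α β γ β' γ' : ℤ} (hβ : β = p * β') (hγ : γ = p * γ')
    (h0 : (γ' : ZMod p) ≠ 0) (h : Sol ℚ_[p] α β γ) : IsSquare (α : ZMod p) := by
  subst hβ hγ
  rcases prim h with ⟨t, m, h1⟩ | ⟨s, m, h1, h2⟩
  · have h3 := congrArg PadicInt.toZMod h1
    simp only [map_pow, map_add, map_mul, map_intCast, map_natCast, Int.cast_mul,
      Int.cast_natCast, CharP.cast_eq_zero, zero_mul, add_zero] at h3
    exact ⟨PadicInt.toZMod m, by rw [← h3]; ring⟩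
  · exfalso
    obtain ⟨s', rfl⟩ := (PadicInt.norm_lt_one_iff_dvd s).1 h1
    have h3 : (p : ℤ_[p]) ∣ m := by
      refine p_prime.dvd_of_dvd_pow (n := 2) ?_
      rw [h2]
      push_cast
      exact ⟨α * p ^ 3 * s' ^ 4 + β' * (p * s') ^ 2 + γ', by ring⟩
    obtain ⟨m', rfl⟩ := h3
    have h4 : p * m' ^ 2 = α * p ^ 3 * s' ^ 4 + β' * (p * s') ^ 2 + γ' := by
      have h5 : (p : ℤ_[p]) * (p * m' ^ 2) =
          p * (α * p ^ 3 * s' ^ 4 + β' * (p * s') ^ 2 + γ') := by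
        have h6 := h2
        push_cast at h6
        linear_combination h6
      exact mul_left_cancel₀ p_ne h5
    have h7 := congrArg PadicInt.toZMod h4
    simp only [map_pow, map_add, map_mul, map_intCast, map_natCast, CharP.cast_eq_zero,
      zero_mul, ne_eq, OfNat.ofNat_ne_zero, not_false_eq_true, zero_pow, mul_zero, zero_add] at h7
    exact h0 h7.symm

end padic

/-- the condition at two -/
theorem loc2 {α β γ γ' : ℤ} (hα : α % 4 = 2) (hβ : β % 4 = 1) (hγ : γ = 8 * γ')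
    (hγ' : γ' % 2 = 1) : ¬ Sol ℚ_[2] α β γ := by
  intro h
  have h8 : (8 : ZMod (2 ^ 3)) = 0 := by decide
  have ha : (α : ZMod (2 ^ 3)) = 2 ∨ (α : ZMod (2 ^ 3)) = 6 := by
    have e : (α : ZMod (2 ^ 3)) = ((α % 8 : ℤ) : ZMod (2 ^ 3)) := by
      rw [← sub_eq_zero, ← Int.cast_sub, ZMod.intCast_zmod_eq_zero_iff_dvd]
      exact_mod_cast Int.dvd_self_sub_emod
    rw [e]
    rcases (by omega : α % 8 = 2 ∨ α % 8 = 6) with h | h <;> rw [h]
    · left; rfl
    · right; rfl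
  have hb : (β : ZMod (2 ^ 3)) = 1 ∨ (β : ZMod (2 ^ 3)) = 5 := by
    have e : (β : ZMod (2 ^ 3)) = ((β % 8 : ℤ) : ZMod (2 ^ 3)) := by
      rw [← sub_eq_zero, ← Int.cast_sub, ZMod.intCast_zmod_eq_zero_iff_dvd]
      exact_mod_cast Int.dvd_self_sub_emod
    rw [e]
    rcases (by omega : β % 8 = 1 ∨ β % 8 = 5) with h | h <;> rw [h]
    · left; rfl
    · right; rfl
  have hg : (2 * (γ' : ZMod (2 ^ 3))) = 2 ∨ (2 * (γ' : ZMod (2 ^ 3))) = 6 := by
    have e : 2 * (γ' : ZMod (2 ^ 3)) = ((2 * γ' % 8 : ℤ) : ZMod (2 ^ 3)) := by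
      rw [← sub_eq_zero]
      have e2 : 2 * (γ' : ZMod (2 ^ 3)) - ((2 * γ' % 8 : ℤ) : ZMod (2 ^ 3)) =
        ((2 * γ' - 2 * γ' % 8 : ℤ) : ZMod (2 ^ 3)) := by push_cast; ring
      rw [e2, ZMod.intCast_zmod_eq_zero_iff_dvd]
      exact_mod_cast Int.dvd_self_sub_emod
    rw [e]
    rcases (by omega : 2 * γ' % 8 = 2 ∨ 2 * γ' % 8 = 6) with h | h <;> rw [h]
    · left; rfl
    · right; rfl
  subst hγ
  rcases prim h with ⟨t, m, h1⟩ | ⟨s, m, h1, h2⟩
  · have h3 := congrArg (PadicInt.toZModPow 3) h1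
    simp only [map_pow, map_add, map_mul, map_intCast, Int.cast_mul, Int.cast_ofNat] at h3
    rw [map_ofNat, h8, zero_mul, zero_mul, add_zero] at h3
    generalize (PadicInt.toZModPow 3) m = m at h3
    generalize (PadicInt.toZModPow 3) t = t at h3
    generalize (α : ZMod (2 ^ 3)) = a at *
    generalize (β : ZMod (2 ^ 3)) = b at *
    revert m t
    rcases ha with rfl | rfl <;> rcases hb with rfl | rfl <;> decide
  · obtain ⟨s', rfl⟩ := (PadicInt.norm_lt_one_iff_dvd s).1 h1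
    have e2 : ((2 : ℕ) : ℤ_[2]) = 2 := by norm_num
    rw [e2] at h2
    have h3 : ((2 : ℕ) : ℤ_[2]) ∣ m := by
      refine p_prime.dvd_of_dvd_pow (n := 2) ?_
      rw [h2, e2]
      push_cast
      exact ⟨α * 8 * s' ^ 4 + β * 2 * s' ^ 2 + 4 * γ', by ring⟩
    obtain ⟨m', rfl⟩ := h3
    rw [e2] at h2
    have h20 : (2 : ℤ_[2]) ≠ 0 := by norm_num
    have h4 : m' ^ 2 = 4 * α * s' ^ 4 + β * s' ^ 2 + 2 * γ' := by
      have h5 : (2 : ℤ_[2]) ^ 2 * m' ^ 2 = (2 : ℤ_[2]) ^ 2 * (4 * α * s' ^ 4 + β * s' ^ 2 + 2 * γ') := by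
        have h6 := h2
        push_cast at h6
        linear_combination h6
      exact mul_left_cancel₀ (pow_ne_zero 2 h20) h5
    have h3 := congrArg (PadicInt.toZModPow 3) h4
    simp only [map_pow, map_add, map_mul, map_intCast, map_ofNat] at h3
    generalize (PadicInt.toZModPow 3) m' = m at h3
    generalize (PadicInt.toZModPow 3) s' = t at h3
    generalize (α : ZMod (2 ^ 3)) = a at *
    generalize (β : ZMod (2 ^ 3)) = b at *
    generalize (2 * (γ' : ZMod (2 ^ 3))) = c at *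
    revert m t
    rcases ha with rfl | rfl <;> rcases hb with rfl | rfl <;> rcases hg with rfl | rfl <;> decide

end Pool.Agent.V8H12.X49
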