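import Mathlib
import Pool.Agent.V8H12.X49.Loc
import Pool.Agent.V8H12.X49.Fld

/-!
# The local conditions at the prime factors of `D` and the matrix of the symbols
-/

set_option autoImplicit false

namespace Pool.Agent.V8H12.X49

/-- the two curves -/
def Kind (κ c : ℤ) : Prop := (κ = 21 ∧ c = 112) ∨ (κ = -42 ∧ c = -7)

section atp

variable {p : ℕ} [hp : Fact p.Prime]

theorem two_ne (h4 : p % 4 = 1) : (2 : ZMod p) ≠ 0 := by
  intro h
  have h1 : ((2 : ℕ) : ZMod p) = 0 := by exact_mod_cast h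
  rw [ZMod.natCast_eq_zero_iff] at h1
  have := Nat.le_of_dvd (by norm_num) h1
  have := hp.out.two_le
  omega

theorem seven_ne (h4 : p % 4 = 1) : (7 : ZMod p) ≠ 0 := by
  intro h
  have h1 : ((7 : ℕ) : ZMod p) = 0 := by exact_mod_cast h
  rw [ZMod.natCast_eq_zero_iff, Nat.prime_dvd_prime_iff_eq hp.out (by norm_num)] at h1
  omega

theorem exists_i (h4 : p % 4 = 1) : ∃ i : ZMod p, i ^ 2 = -1 := by
  obtain ⟨i, hi⟩ := ZMod.exists_sq_eq_neg_one_iff.2 (show p % 4 ≠ 3 by omega)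
  exact ⟨i, by rw [hi]; ring⟩

theorem neg_one_sq (h4 : p % 4 = 1) : IsSquare (-1 : ZMod p) :=
  ZMod.exists_sq_eq_neg_one_iff.2 (show p % 4 ≠ 3 by omega)

theorem c_ne (h4 : p % 4 = 1) {κ c : ℤ} (hk : Kind κ c) : (c : ZMod p) ≠ 0 := by
  have h2 := two_ne h4
  have h7 := seven_ne h4
  rcases hk with ⟨-, rfl⟩ | ⟨-, rfl⟩
  · have e : ((112 : ℤ) : ZMod p) = 2 ^ 4 * 7 := by norm_num
    rw [e]
    exact mul_ne_zero (pow_ne_zero 4 h2) h7
  · have e : ((-7 : ℤ) : ZMod p) = -7 := by norm_num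
    rw [e]
    exact neg_ne_zero.2 h7

theorem c_sq (h4 : p % 4 = 1) {κ c : ℤ} (hk : Kind κ c) (hs : IsSquare (-7 : ZMod p)) :
    IsSquare (c : ZMod p) := by
  rcases hk with ⟨-, rfl⟩ | ⟨-, rfl⟩
  · have e : ((112 : ℤ) : ZMod p) = (4 * 4) * (-1 * -7) := by norm_num
    rw [e]
    exact IsSquare.mul ⟨4, rfl⟩ ((neg_one_sq h4).mul hs)
  · have e : ((-7 : ℤ) : ZMod p) = -7 := by norm_num
    rw [e]
    exact hs

theorem int_ne {m : ℤ} : (m : ZMod p) ≠ 0 ↔ ¬ (p : ℤ) ∣ m := by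
  rw [ne_eq, ZMod.intCast_zmod_eq_zero_iff_dvd]

theorem div_case (h4 : p % 4 = 1) {κ c : ℤ} (hk : Kind κ c) {A γ δ : ℤ}
    (hA : (A : ZMod p) ≠ 0) (hδ : (δ : ZMod p) ≠ 0) (hγ : (p * A) * γ = c * (p * δ) ^ 2)
    (h : Sol ℚ_[p] (p * A) (κ * (p * δ)) γ) :
    ∃ r : ZMod p, r ^ 2 = -7 ∧ IsSquare ((A : ZMod p) * δ * r) := by
  have hp0 : (p : ℤ) ≠ 0 := by exact_mod_cast hp.out.ne_zero
  have hpp : Prime (p : ℤ) := Nat.prime_iff_prime_int.1 hp.out
  have e1 : A * γ = p * (c * δ ^ 2) := by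
    have : (p : ℤ) * (A * γ) = p * (p * (c * δ ^ 2)) := by linear_combination hγ
    exact mul_left_cancel₀ hp0 this
  have h1 : (p : ℤ) ∣ γ := (hpp.dvd_or_dvd ⟨_, e1⟩).resolve_left (int_ne.1 hA)
  obtain ⟨γ', rfl⟩ := h1
  have e2 : A * γ' = c * δ ^ 2 := by
    have : (p : ℤ) * (A * γ') = p * (c * δ ^ 2) := by linear_combination e1
    exact mul_left_cancel₀ hp0 this
  have e3 : (A : ZMod p) * γ' = c * δ ^ 2 := by exact_mod_cast congrArg (Int.cast (R := ZMod p)) e2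
  have h0 : (γ' : ZMod p) ≠ 0 := by
    intro h
    rw [h, mul_zero] at e3
    exact mul_ne_zero (c_ne h4 hk) (pow_ne_zero 2 hδ) e3.symm
  obtain ⟨t, ht⟩ := locB (α' := A) (β' := κ * δ) (γ' := γ') rfl (by ring) rfl h0 h
  rcases hk with ⟨rfl, rfl⟩ | ⟨rfl, rfl⟩
  · refine root1 (two_ne h4) hA hδ (γ := γ') (by rw [e3]; norm_num) ⟨t, ?_⟩
    rw [← ht]; push_cast; ring
  · obtain ⟨i, hi⟩ := exists_i h4
    refine root2 (two_ne h4) hi hA hδ (γ := γ') (by rw [e3]; norm_num) ⟨t, ?_⟩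
    rw [← ht]; push_cast; ring

theorem ndiv_case (h4 : p % 4 = 1) {κ c : ℤ} (hk : Kind κ c) {b γ δ : ℤ}
    (hb : (b : ZMod p) ≠ 0) (hδ : (δ : ZMod p) ≠ 0) (hγ : b * γ = c * (p * δ) ^ 2)
    (hs : IsSquare (-7 : ZMod p))
    (h : Sol ℚ_[p] b (κ * (p * δ)) γ) : IsSquare (b : ZMod p) := by
  have hp0 : (p : ℤ) ≠ 0 := by exact_mod_cast hp.out.ne_zero
  have hpp : Prime (p : ℤ) := Nat.prime_iff_prime_int.1 hp.out
  have hcop : IsCoprime ((p : ℤ) ^ 2) b :=
    IsCoprime.pow_left ((Prime.coprime_iff_not_dvd hpp).2 (int_ne.1 hb))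
  have h1 : (p : ℤ) ^ 2 ∣ γ := hcop.dvd_of_dvd_mul_left ⟨c * δ ^ 2, by rw [hγ]; ring⟩
  obtain ⟨γ', rfl⟩ := h1
  have e2 : b * γ' = c * δ ^ 2 := by
    have : (p : ℤ) ^ 2 * (b * γ') = p ^ 2 * (c * δ ^ 2) := by linear_combination hγ
    exact mul_left_cancel₀ (pow_ne_zero 2 hp0) this
  have e3 : (b : ZMod p) * γ' = c * δ ^ 2 := by exact_mod_cast congrArg (Int.cast (R := ZMod p)) e2
  have hg0 : (γ' : ZMod p) ≠ 0 := by
    intro h
    rw [h, mul_zero] at e3
    exact mul_ne_zero (c_ne h4 hk) (pow_ne_zero 2 hδ) e3.symm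
  rcases locA (γ' := γ') ⟨κ * δ, by ring⟩ rfl h with h2 | h2
  · exact h2
  · have h3 : lam ((b : ZMod p) * γ') = 0 := by
      rw [e3]
      exact lam_of_sq ((c_sq h4 hk hs).mul ⟨δ, sq _⟩)
    rw [lam_mul hb hg0, lam_of_sq h2, add_zero] at h3
    exact (lam_zero_iff _).1 h3

open scoped Classical in
/-- `1` if `-7` is not a fourth power modulo `p`, and `0` if it is -/
noncomputable def nonfourth (p : ℕ) : ZMod 2 := if ∃ y : ZMod p, y ^ 4 = -7 then 0 else 1

theorem nonfourth_eq (h4 : p % 4 = 1) {r : ZMod p} (hr : r ^ 2 = -7) : nonfourth p = lam r := by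
  have key : (∃ y : ZMod p, y ^ 4 = -7) ↔ IsSquare r := by
    constructor
    · rintro ⟨y, hy⟩
      have h1 : (y ^ 2 - r) * (y ^ 2 + r) = 0 := by linear_combination hy - hr
      rcases mul_eq_zero.1 h1 with h | h
      · exact ⟨y, by linear_combination -h⟩
      · have h2 : IsSquare (-1 * (y * y)) := (neg_one_sq h4).mul ⟨y, rfl⟩
        have e : r = -1 * (y * y) := by linear_combination h
        rw [e]
        exact h2
    · rintro ⟨y, rfl⟩
      exact ⟨y, by rw [← hr]; ring⟩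
  unfold nonfourth lam
  by_cases h : IsSquare r
  · rw [if_pos h, if_pos (key.2 h)]
  · rw [if_neg h, if_neg fun h' => h (key.1 h')]

end atp

open scoped Classical in
/-- `1` if `m` is not a square modulo `p`, and `0` if it is -/
noncomputable def nonsq (p m : ℕ) : ZMod 2 := if IsSquare (m : ZMod p) then 0 else 1

open scoped Classical in
/-- The prime factors of `D` which split in `ℚ(√-7)`. -/
noncomputable def split (D : ℕ) : Finset ℕ := D.primeFactors.filter fun p => IsSquare (-7 : ZMod p)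

open scoped Classical in
/-- the matrix -/
noncomputable def mat (D : ℕ) : Matrix (split D) (split D) (ZMod 2) := Matrix.of fun i j =>
  if i = j then nonfourth i + ∑ l ∈ D.primeFactors.erase i, nonsq i l else nonsq i j

/-- `D` is squarefree and all its prime factors are `≡ 1 mod 4`. -/
def Adm (D : ℕ) : Prop := Squarefree D ∧ ∀ p ∈ D.primeFactors, p % 4 = 1

theorem nonsq_eq {p : ℕ} [Fact p.Prime] (m : ℕ) : nonsq p m = lam (m : ZMod p) := rfl

/-- the indicator vector of `T` -/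
noncomputable def ind (D : ℕ) (T : Finset ℕ) : split D → ZMod 2 := fun i => if (i : ℕ) ∈ T then 1 else 0

open scoped Classical in
theorem mulVec_ind {D : ℕ} {T : Finset ℕ} (hT : T ⊆ split D) (i : split D) :
    (mat D).mulVec (ind D T) i =
      (if (i : ℕ) ∈ T then nonfourth i + ∑ l ∈ D.primeFactors.erase i, nonsq i l else 0) +
        ∑ j ∈ T.erase i, nonsq i j := by
  have h1 : (mat D).mulVec (ind D T) i = ∑ j : split D, mat D i j * ind D T j := rfl
  rw [h1, ← Finset.add_sum_erase Finset.univ _ (Finset.mem_univ i)]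
  congr 1
  · unfold mat ind
    rw [Matrix.of_apply, if_pos rfl]
    split_ifs
    · rw [mul_one]
    · rw [mul_zero]
  · have h2 : ∀ j ∈ Finset.univ.erase i, mat D i j * ind D T j =
        if (j : ℕ) ∈ T then nonsq i j else 0 := by
      intro j hj
      have hij : i ≠ j := fun h => (Finset.ne_of_mem_erase hj) h.symm
      unfold mat ind
      rw [Matrix.of_apply, if_neg hij]
      split_ifs
      · rw [mul_one]
      · rw [mul_zero]
    rw [Finset.sum_congr rfl h2, ← Finset.sum_filter]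
    refine Finset.sum_bij (fun j _ => (j : ℕ)) ?_ ?_ ?_ ?_
    · intro j hj
      rw [Finset.mem_filter, Finset.mem_erase] at hj
      rw [Finset.mem_erase]
      exact ⟨fun h => hj.1.1 (Subtype.ext h), hj.2⟩
    · intro a _ b _ h
      exact Subtype.ext h
    · intro b hb
      rw [Finset.mem_erase] at hb
      refine ⟨⟨b, hT hb.2⟩, ?_, rfl⟩
      rw [Finset.mem_filter, Finset.mem_erase]
      exact ⟨⟨fun h => hb.1 (congrArg Subtype.val h), Finset.mem_univ _⟩, hb.2⟩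
    · intro j _
      rfl

end Pool.Agent.V8H12.X49
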