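import Mathlib
import Pool.Agent.V8H12.X49.Up

/-!
# The elements of the Selmer sets
-/

set_option autoImplicit false

namespace Pool.Agent.V8H12.X49

theorem seven_notMem {D : ℕ} (hD : Adm D) : 7 ∉ D.primeFactors := fun h => by
  have := hD.2 7 h
  omega

open scoped Classical in
/-- the prime factors of `D` that divide `b` -/
noncomputable def Tset (D : ℕ) (b : ℤ) : Finset ℕ := D.primeFactors.filter fun q => (q : ℤ) ∣ b

def IsU (U : ℤ) : Prop := U = 1 ∨ U = -1 ∨ U = 7 ∨ U = -7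

theorem decomp {D : ℕ} (hD : Adm D) {b : ℤ} (hs : Squarefree b) (hb : b ∣ 7 * (D : ℤ) ^ 2) :
    ∃ U : ℤ, IsU U ∧ b = U * ∏ q ∈ Tset D b, (q : ℤ) := by
  classical
  set n := b.natAbs with hn
  have hsn : Squarefree n := Int.squarefree_natAbs.2 hs
  have hdn : n ∣ 7 * D ^ 2 := by
    have h := Int.natAbs_dvd_natAbs.2 hb
    simpa [Int.natAbs_mul, Int.natAbs_pow] using h
  have hT : Tset D b = D.primeFactors.filter fun q => q ∣ n := by
    unfold Tset
    refine Finset.filter_congr fun q _ => ?_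
    rw [hn]
    exact Int.natCast_dvd
  have hprod := Nat.prod_primeFactors_of_squarefree hsn
  have hn0 : n ≠ 0 := hsn.ne_zero
  have hsub : ∀ q ∈ n.primeFactors, q = 7 ∨ q ∈ D.primeFactors := by
    intro q hq
    have hqp := Nat.prime_of_mem_primeFactors hq
    have h1 : q ∣ 7 * D ^ 2 := (Nat.dvd_of_mem_primeFactors hq).trans hdn
    rcases (Nat.Prime.dvd_mul hqp).1 h1 with h | h
    · left
      exact (Nat.prime_dvd_prime_iff_eq hqp (by norm_num)).1 h
    · right
      exact Nat.mem_primeFactors.2 ⟨hqp, hqp.dvd_of_dvd_pow h, hD.1.ne_zero⟩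
  have h7 := seven_notMem hD
  have hu : ∃ u : ℕ, (u = 1 ∨ u = 7) ∧ n = u * ∏ q ∈ Tset D b, q := by
    by_cases h : 7 ∣ n
    · refine ⟨7, Or.inr rfl, ?_⟩
      have e : n.primeFactors = insert 7 (Tset D b) := by
        ext q
        rw [hT, Finset.mem_insert, Finset.mem_filter]
        constructor
        · intro hq
          rcases hsub q hq with h1 | h1
          · exact Or.inl h1
          · exact Or.inr ⟨h1, Nat.dvd_of_mem_primeFactors hq⟩
        · rintro (rfl | ⟨h1, h2⟩)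
          · exact Nat.mem_primeFactors.2 ⟨by norm_num, h, hn0⟩
          · exact Nat.mem_primeFactors.2 ⟨Nat.prime_of_mem_primeFactors h1, h2, hn0⟩
      rw [← hprod, e, Finset.prod_insert]
      intro h8
      rw [hT] at h8
      exact h7 (Finset.mem_filter.1 h8).1
    · refine ⟨1, Or.inl rfl, ?_⟩
      have e : n.primeFactors = Tset D b := by
        ext q
        rw [hT, Finset.mem_filter]
        constructor
        · intro hq
          rcases hsub q hq with h1 | h1
          · exact absurd (h1 ▸ Nat.dvd_of_mem_primeFactors hq) h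
          · exact ⟨h1, Nat.dvd_of_mem_primeFactors hq⟩
        · rintro ⟨h1, h2⟩
          exact Nat.mem_primeFactors.2 ⟨Nat.prime_of_mem_primeFactors h1, h2, hn0⟩
      rw [← hprod, e, one_mul]
  obtain ⟨u, hu1, hu2⟩ := hu
  have hu3 : (n : ℤ) = u * ∏ q ∈ Tset D b, (q : ℤ) := by
    rw [hu2]
    push_cast
    rfl
  rcases Int.natAbs_eq b with h | h
  · refine ⟨u, ?_, ?_⟩
    · rcases hu1 with rfl | rfl
      · exact Or.inl rfl
      · exact Or.inr (Or.inr (Or.inl rfl))
    · rw [← hu3, hn]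
      exact h
  · refine ⟨-u, ?_, ?_⟩
    · rcases hu1 with rfl | rfl
      · exact Or.inr (Or.inl rfl)
      · exact Or.inr (Or.inr (Or.inr rfl))
    · rw [neg_mul, ← hu3, hn]
      exact h

theorem lam_U {p : ℕ} [hp : Fact p.Prime] (h4 : p % 4 = 1) (hs : IsSquare (-7 : ZMod p)) {U : ℤ}
    (hU : IsU U) : (U : ZMod p) ≠ 0 ∧ lam (U : ZMod p) = 0 := by
  have h1 := neg_one_sq h4
  have h7 : IsSquare (7 : ZMod p) := by
    have e : (7 : ZMod p) = -1 * -7 := by norm_num
    rw [e]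
    exact h1.mul hs
  rcases hU with rfl | rfl | rfl | rfl
  · exact ⟨by norm_num, by push_cast; exact lam_of_sq ⟨1, by ring⟩⟩
  · exact ⟨by norm_num, by push_cast; exact lam_of_sq h1⟩
  · exact ⟨by push_cast; exact seven_ne h4, by push_cast; exact lam_of_sq h7⟩
  · exact ⟨by push_cast; exact neg_ne_zero.2 (seven_ne h4), by push_cast; exact lam_of_sq hs⟩

theorem cast_ne {D : ℕ} {p q : ℕ} [hp : Fact p.Prime] (hq : q ∈ D.primeFactors) (hpq : q ≠ p) :
    (q : ZMod p) ≠ 0 := by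
  rw [ne_eq, ZMod.natCast_eq_zero_iff]
  intro h
  exact hpq ((Nat.prime_dvd_prime_iff_eq hp.out (Nat.prime_of_mem_primeFactors hq)).1 h).symm

theorem lam_prod_nonsq {D : ℕ} {p : ℕ} [hp : Fact p.Prime] {S : Finset ℕ} (hS : S ⊆ D.primeFactors)
    (hpS : p ∉ S) : (∏ q ∈ S, (q : ZMod p)) ≠ 0 ∧
      lam (∏ q ∈ S, (q : ZMod p)) = ∑ q ∈ S, nonsq p q := by
  have h : ∀ q ∈ S, (q : ZMod p) ≠ 0 := fun q hq => cast_ne (hS hq) (fun h => hpS (h ▸ hq))
  exact ⟨Finset.prod_ne_zero_iff.2 h, lam_prod S _ h⟩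

/-- the necessary conditions at the prime factors of `D` -/
theorem nec {D : ℕ} (hD : Adm D) {κ c : ℤ} (hk : Kind κ c) {b γ U : ℤ} (hU : IsU U)
    (hb : b = U * ∏ q ∈ Tset D b, (q : ℤ)) (hγ : b * γ = c * (D : ℤ) ^ 2)
    (h : ∀ (p : ℕ) [Fact p.Prime], Sol (Padic p) b (κ * D) γ) :
    Tset D b ⊆ split D ∧ (mat D).mulVec (ind D (Tset D b)) = 0 := by
  classical
  set T := Tset D b with hT
  have hTD : T ⊆ D.primeFactors := Finset.filter_subset _ _
  have hDprod : ∏ q ∈ D.primeFactors, q = D := Nat.prod_primeFactors_of_squarefree hD.1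
  -- decomposition of `D` at `p`
  have hDp : ∀ p ∈ D.primeFactors, (D : ℤ) = p * ∏ q ∈ D.primeFactors.erase p, (q : ℤ) := by
    intro p hp
    conv_lhs => rw [← hDprod]
    push_cast
    exact (Finset.mul_prod_erase _ _ hp).symm
  -- the divisors
  have hdiv : ∀ p ∈ T, ∃ (_ : Fact p.Prime) (r : ZMod p), r ^ 2 = -7 ∧
      IsSquare (((U * ∏ q ∈ T.erase p, (q : ℤ) : ℤ) : ZMod p) *
        ((∏ q ∈ D.primeFactors.erase p, (q : ℤ) : ℤ) : ZMod p) * r) := by
    intro p hpT
    have hpD := hTD hpT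
    have hpp := Nat.prime_of_mem_primeFactors hpD
    have : Fact p.Prime := ⟨hpp⟩
    refine ⟨inferInstance, ?_⟩
    have h4 := hD.2 p hpD
    have hbp : b = p * (U * ∏ q ∈ T.erase p, (q : ℤ)) := by
      conv_lhs => rw [hb]
      rw [← Finset.mul_prod_erase T (fun q => (q : ℤ)) hpT]
      ring
    have hA : ((U * ∏ q ∈ T.erase p, (q : ℤ) : ℤ) : ZMod p) ≠ 0 := by
      push_cast
      refine mul_ne_zero ?_ (lam_prod_nonsq (D := D) ((Finset.erase_subset _ _).trans hTD)
        (Finset.notMem_erase _ _)).1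
      have h7 := seven_ne (p := p) h4
      rcases hU with rfl | rfl | rfl | rfl
      · norm_num
      · norm_num
      · push_cast; exact h7
      · push_cast; exact neg_ne_zero.2 h7
    have hδ : ((∏ q ∈ D.primeFactors.erase p, (q : ℤ) : ℤ) : ZMod p) ≠ 0 := by
      push_cast
      exact (lam_prod_nonsq (D := D) (Finset.erase_subset _ _) (Finset.notMem_erase _ _)).1
    have hsol := h p
    rw [hDp p hpD] at hsol hγ
    rw [hbp] at hsol hγ
    exact div_case h4 hk hA hδ hγ hsol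
  have hTs : T ⊆ split D := by
    intro p hpT
    obtain ⟨_, r, hr, -⟩ := hdiv p hpT
    unfold split
    rw [Finset.mem_filter]
    exact ⟨hTD hpT, ⟨r, by rw [← hr]; ring⟩⟩
  refine ⟨hTs, ?_⟩
  funext i
  obtain ⟨p, hpS⟩ := i
  rw [mulVec_ind hTs]
  have hpD : p ∈ D.primeFactors := (Finset.mem_filter.1 hpS).1
  have hsq7 : IsSquare (-7 : ZMod p) := (Finset.mem_filter.1 hpS).2
  have hpp := Nat.prime_of_mem_primeFactors hpD
  have : Fact p.Prime := ⟨hpp⟩
  have h4 := hD.2 p hpD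
  obtain ⟨hU0, hU1⟩ := lam_U h4 hsq7 hU
  obtain ⟨hδ0, hδ1⟩ := lam_prod_nonsq (D := D) (p := p) (Finset.erase_subset p D.primeFactors)
    (Finset.notMem_erase _ _)
  obtain ⟨hA0, hA1⟩ := lam_prod_nonsq (D := D) (p := p) ((Finset.erase_subset p T).trans hTD)
    (Finset.notMem_erase _ _)
  show (if p ∈ T then nonfourth p + ∑ l ∈ D.primeFactors.erase p, nonsq p l else 0) +
        ∑ j ∈ T.erase p, nonsq p j = 0
  by_cases hpT : p ∈ T
  · rw [if_pos hpT]
    obtain ⟨_, r, hr, hsq⟩ := hdiv p hpT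
    have hr0 : r ≠ 0 := by
      rintro rfl
      apply seven_ne (p := p) h4
      linear_combination hr
    have h1 := lam_of_sq hsq
    push_cast at h1
    rw [lam_mul (mul_ne_zero (mul_ne_zero hU0 hA0) hδ0) hr0, lam_mul (mul_ne_zero hU0 hA0) hδ0,
      lam_mul hU0 hA0, hU1, hA1, hδ1, zero_add, ← nonfourth_eq h4 hr] at h1
    rw [← h1]
    ring
  · rw [if_neg hpT, zero_add, Finset.erase_eq_of_notMem hpT]
    rw [Finset.erase_eq_of_notMem hpT] at hA0 hA1
    have hb0 : (b : ZMod p) ≠ 0 := by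
      rw [hb]
      push_cast
      exact mul_ne_zero hU0 hA0
    have hsol := h p
    rw [hDp p hpD] at hsol hγ
    have hδ0' : ((∏ q ∈ D.primeFactors.erase p, (q : ℤ) : ℤ) : ZMod p) ≠ 0 := by
      push_cast
      exact hδ0
    have h1 := lam_of_sq (ndiv_case h4 hk hb0 hδ0' hγ hsq7 hsol)
    rw [hb] at h1
    push_cast at h1
    rw [lam_mul hU0 hA0, hU1, hA1, zero_add] at h1
    exact h1

end Pool.Agent.V8H12.X49
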