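import Mathlib
import Pool.Agent.V8H12.X49.Bd

/-!
# The Selmer sets of the two isogenies
-/

set_option autoImplicit false

namespace Pool.Agent.V8H12.X49

/-- the set of the `b₁` of the problem for the curve `y² = x³ + a x² + b x` -/
def SelSet (a b : ℤ) : Set ℤ := {b₁ : ℤ | Squarefree b₁ ∧ b₁ ∣ b ∧ Sol ℝ b₁ a (b / b₁) ∧
  ∀ (p : ℕ) [Fact p.Prime], Sol (Padic p) b₁ a (b / b₁)}

theorem D_mod {D : ℕ} (hD : Adm D) : D % 4 = 1 := by
  have h : (∏ q ∈ D.primeFactors, q) % 4 = 1 := by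
    refine Finset.prod_induction (fun q => q) (fun n => n % 4 = 1) (fun a b ha hb => ?_) rfl
      fun q hq => hD.2 q hq
    show a * b % 4 = 1
    rw [Nat.mul_mod, ha, hb]
  rwa [Nat.prod_primeFactors_of_squarefree hD.1] at h

theorem D_pos {D : ℕ} (hD : Adm D) : 0 < D := Nat.pos_of_ne_zero hD.1.ne_zero

theorem prodT_pos {D : ℕ} {T : Finset ℕ} (hT : T ⊆ D.primeFactors) : 0 < ∏ q ∈ T, (q : ℤ) :=
  Finset.prod_pos fun q hq => by
    have := (Nat.prime_of_mem_primeFactors (hT hq)).pos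
    exact_mod_cast this

theorem split_sub (D : ℕ) : split D ⊆ D.primeFactors := by
  classical
  exact Finset.filter_subset _ _

theorem split_sq7 {D : ℕ} (hD : Adm D) {q : ℕ} (hq : q ∈ split D) : IsSquare (q : ZMod 7) := by
  classical
  have hqD := split_sub D hq
  have hqp := Nat.prime_of_mem_primeFactors hqD
  have : Fact q.Prime := ⟨hqp⟩
  have : Fact (Nat.Prime 7) := ⟨by norm_num⟩
  have h4 := hD.2 q hqD
  have hs : IsSquare (-7 : ZMod q) := (Finset.mem_filter.1 hq).2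
  have h7 : IsSquare ((7 : ℕ) : ZMod q) := by
    have e : ((7 : ℕ) : ZMod q) = -1 * -7 := by norm_num
    rw [e]
    exact (neg_one_sq h4).mul hs
  exact (ZMod.exists_sq_eq_prime_iff_of_mod_four_eq_one h4 (by norm_num)).1 h7

theorem prod_sq7 {D : ℕ} (hD : Adm D) {T : Finset ℕ} (hT : T ⊆ split D) :
    IsSquare ((∏ q ∈ T, (q : ℤ) : ℤ) : ZMod 7) ∧ ((∏ q ∈ T, (q : ℤ) : ℤ) : ZMod 7) ≠ 0 := by
  have : Fact (Nat.Prime 7) := ⟨by norm_num⟩
  push_cast
  constructor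
  · refine Finset.prod_induction (fun q : ℕ => (q : ZMod 7)) IsSquare (fun a b ha hb => ha.mul hb)
      ⟨1, by ring⟩ fun q hq => split_sq7 hD (hT hq)
  · refine Finset.prod_ne_zero_iff.2 fun q hq h => ?_
    have h1 := (ZMod.natCast_eq_zero_iff q 7).1 h
    have hqD := split_sub D (hT hq)
    have h2 := (Nat.prime_dvd_prime_iff_eq (by norm_num) (Nat.prime_of_mem_primeFactors hqD)).1 h1
    exact seven_notMem hD (h2 ▸ hqD)

theorem neg_one_not7 : ¬ IsSquare (-1 : ZMod 7) := by decide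

theorem neg_one_ne7 : (-1 : ZMod 7) ≠ 0 := by decide

/-- **First Selmer set, upper bound** -/
theorem upper1 {D : ℕ} (hD : Adm D) {b : ℤ} (h : b ∈ SelSet (21 * D) (112 * (D : ℤ) ^ 2)) :
    ∃ (U : ℤ) (T : Finset ℕ), (U = 1 ∨ U = 7) ∧ T ⊆ split D ∧ b = U * ∏ q ∈ T, (q : ℤ) ∧
      (mat D).mulVec (ind D T) = 0 := by
  obtain ⟨hs, hdvd, hR, hP⟩ := h
  have hD0 : (0 : ℤ) < D := by exact_mod_cast D_pos hD
  have hγ : b * (112 * (D : ℤ) ^ 2 / b) = 112 * (D : ℤ) ^ 2 := Int.mul_ediv_cancel' hdvd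
  set γ := 112 * (D : ℤ) ^ 2 / b with hγd
  have hb0 : b ≠ 0 := hs.ne_zero
  have hDm := D_mod hD
  have hDo : (D : ℤ) % 4 = 1 := by omega
  -- positivity
  have hpos : 0 < b := by
    by_contra hneg
    have hb1 : b < 0 := lt_of_le_of_ne (not_lt.1 hneg) hb0
    refine not_real hb1 ?_ hR
    have e : 4 * b * γ = 448 * (D : ℤ) ^ 2 := by linear_combination 4 * hγ
    rw [e]
    nlinarith
  -- odd
  have hodd : ¬ (2 : ℤ) ∣ b := by
    rintro ⟨b', rfl⟩
    have hb' : ¬ (2 : ℤ) ∣ b' := by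
      rintro ⟨b'', rfl⟩
      have h1 : (2 : ℤ) * 2 ∣ 2 * (2 * b'') := ⟨b'', by ring⟩
      have h2 := hs 2 h1
      rw [Int.isUnit_iff] at h2
      omega
    have e1 : b' * γ = 8 * (7 * (D : ℤ) ^ 2) := by
      have : (2 : ℤ) * (b' * γ) = 2 * (8 * (7 * (D : ℤ) ^ 2)) := by linear_combination hγ
      exact mul_left_cancel₀ two_ne_zero this
    have hcop : IsCoprime (8 : ℤ) b' := by
      have h3 : IsCoprime (2 : ℤ) b' := (Prime.coprime_iff_not_dvd Int.prime_two).2 hb'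
      have h4 : (8 : ℤ) = 2 ^ 3 := by norm_num
      rw [h4]
      exact h3.pow_left
    obtain ⟨γ', hγ'⟩ : (8 : ℤ) ∣ γ := hcop.dvd_of_dvd_mul_left ⟨_, e1⟩
    have e2 : b' * γ' = 7 * (D : ℤ) ^ 2 := by
      have : (8 : ℤ) * (b' * γ') = 8 * (7 * (D : ℤ) ^ 2) := by
        rw [hγ'] at e1
        linear_combination e1
      exact mul_left_cancel₀ (by norm_num) this
    have hγo : γ' % 2 = 1 := by
      rcases Int.emod_two_eq_zero_or_one γ' with h5 | h5
      · exfalso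
        obtain ⟨k, hk⟩ := Int.dvd_of_emod_eq_zero h5
        have h6 : (2 : ℤ) ∣ 7 * (D : ℤ) ^ 2 := ⟨b' * k, by rw [← e2, hk]; ring⟩
        rcases Int.prime_two.dvd_or_dvd h6 with h7 | h7
        · omega
        · have := Int.prime_two.dvd_of_dvd_pow h7
          omega
      · exact h5
    exact loc2 (by omega) (by omega) hγ' hγo (hP 2)
  have hb7 : b ∣ 7 * (D : ℤ) ^ 2 := by
    have hcop : IsCoprime b (16 : ℤ) := by
      have h3 : IsCoprime (2 : ℤ) b := (Prime.coprime_iff_not_dvd Int.prime_two).2 hodd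
      have h4 : (16 : ℤ) = 2 ^ 4 := by norm_num
      rw [h4]
      exact (h3.pow_left).symm
    refine hcop.dvd_of_dvd_mul_left ⟨γ, ?_⟩
    rw [hγ]; ring
  obtain ⟨U, hU, hbU⟩ := decomp hD hs hb7
  obtain ⟨h1, h2⟩ := nec hD (κ := 21) (c := 112) (Or.inl ⟨rfl, rfl⟩) hU hbU hγ
    (fun p _ => hP p)
  refine ⟨U, Tset D b, ?_, h1, hbU, h2⟩
  have h3 := prodT_pos (h1.trans (split_sub D))
  have h4 : 0 < U := by
    rw [hbU] at hpos
    exact (pos_iff_pos_of_mul_pos hpos).2 h3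
  rcases hU with rfl | rfl | rfl | rfl
  · exact Or.inl rfl
  · norm_num at h4
  · exact Or.inr rfl
  · norm_num at h4

/-- **Second Selmer set, upper bound** -/
theorem upper2 {D : ℕ} (hD : Adm D) {b : ℤ} (h : b ∈ SelSet (-42 * D) (-7 * (D : ℤ) ^ 2)) :
    ∃ (U : ℤ) (T : Finset ℕ), (U = 1 ∨ U = -7) ∧ T ⊆ split D ∧ b = U * ∏ q ∈ T, (q : ℤ) ∧
      (mat D).mulVec (ind D T) = 0 := by
  have : Fact (Nat.Prime 7) := ⟨by norm_num⟩
  obtain ⟨hs, hdvd, hR, hP⟩ := h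
  have hγ : b * (-7 * (D : ℤ) ^ 2 / b) = -7 * (D : ℤ) ^ 2 := Int.mul_ediv_cancel' hdvd
  set γ := -7 * (D : ℤ) ^ 2 / b with hγd
  have hb7 : b ∣ 7 * (D : ℤ) ^ 2 := by
    rw [← dvd_neg]
    exact ⟨γ, by rw [hγ]; ring⟩
  obtain ⟨U, hU, hbU⟩ := decomp hD hs hb7
  obtain ⟨h1, h2⟩ := nec hD (κ := -42) (c := -7) (Or.inr ⟨rfl, rfl⟩) hU hbU hγ
    (fun p _ => hP p)
  refine ⟨U, Tset D b, ?_, h1, hbU, h2⟩
  obtain ⟨h3, h30⟩ := prod_sq7 hD h1
  set P := ∏ q ∈ Tset D b, (q : ℤ) with hPd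
  have hD7 : ((D : ℤ) : ZMod 7) ≠ 0 := by
    push_cast
    rw [ne_eq, ZMod.natCast_eq_zero_iff]
    intro h
    exact seven_notMem hD (Nat.mem_primeFactors.2 ⟨by norm_num, h, hD.1.ne_zero⟩)
  have hpp : Prime (7 : ℤ) := by norm_num
  have hneg : lam (-1 : ZMod 7) = 1 := lam_eq_one neg_one_not7
  have h10 : (1 : ZMod 2) ≠ 0 := by decide
  rcases hU with rfl | rfl | rfl | rfl
  · exact Or.inl rfl
  · exfalso
    -- `b = - P`
    have e0 : (-P) * γ = -7 * (D : ℤ) ^ 2 := by rw [← hγ, hbU]; ring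
    have h4 : (7 : ℤ) ∣ γ := by
      refine (hpp.dvd_or_dvd (⟨(D : ℤ) ^ 2, by linear_combination -e0⟩ : (7 : ℤ) ∣ P * γ)).resolve_left ?_
      intro h5
      exact h30 ((ZMod.intCast_zmod_eq_zero_iff_dvd P 7).2 (by exact_mod_cast h5))
    obtain ⟨γ', hγ'⟩ := h4
    have e1 : P * γ' = (D : ℤ) ^ 2 := by
      have : (7 : ℤ) * (P * γ') = 7 * (D : ℤ) ^ 2 := by rw [hγ'] at e0; linear_combination -e0
      exact mul_left_cancel₀ (by norm_num) this
    have e2 : (P : ZMod 7) * γ' = (D : ℤ) ^ 2 := by exact_mod_cast congrArg (Int.cast (R := ZMod 7)) e1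
    have h5 : (γ' : ZMod 7) ≠ 0 := by
      intro h
      rw [h, mul_zero] at e2
      exact pow_ne_zero 2 hD7 e2.symm
    have h6 : IsSquare (b : ZMod 7) := by
      have := hP 7
      exact locC (p := 7) (β' := -6 * D) (γ' := γ') (by push_cast; ring) (by rw [hγ']; push_cast; ring) h5
        (hP 7)
    have h7 := lam_of_sq h6
    rw [hbU] at h7
    push_cast at h7
    rw [lam_mul neg_one_ne7 h30, hneg, lam_of_sq h3, add_zero] at h7
    exact h10 h7
  · exfalso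
    -- `b = 7 P`
    have e0 : P * γ = -(D : ℤ) ^ 2 := by
      have : (7 : ℤ) * (P * γ) = 7 * (-(D : ℤ) ^ 2) := by rw [hbU] at hγ; linear_combination hγ
      exact mul_left_cancel₀ (by norm_num) this
    have e2 : (P : ZMod 7) * γ = -1 * ((D : ℤ) : ZMod 7) ^ 2 := by
      have := congrArg (Int.cast (R := ZMod 7)) e0
      push_cast at this ⊢
      rw [this]; ring
    have h5 : (γ : ZMod 7) ≠ 0 := by
      intro h
      rw [h, mul_zero] at e2
      exact mul_ne_zero neg_one_ne7 (pow_ne_zero 2 hD7) e2.symm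
    have h6 : IsSquare (γ : ZMod 7) :=
      locC (p := 7) (β' := -6 * D) (γ' := P) (by push_cast; ring) (by rw [hbU]; push_cast; ring) h30
        (hP 7).swap
    have h7 : lam ((P : ZMod 7) * γ) = lam (-1 * ((D : ℤ) : ZMod 7) ^ 2) := by rw [e2]
    rw [lam_mul h30 h5, lam_mul neg_one_ne7 (pow_ne_zero 2 hD7), hneg, lam_of_sq h3, lam_of_sq h6,
      lam_sq, add_zero, add_zero] at h7
    exact h10 h7.symm
  · exact Or.inr rfl

end Pool.Agent.V8H12.X49
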