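import Mathlib
import Pool.Agent.V8H12.X49.Fld
import Pool.Agent.V8H12.X49.Up
import Pool.Agent.H341R2.WeilSharp

/-!
# Square roots and roots of quartic polynomials in the `p`-adic integers
-/

set_option autoImplicit false

namespace Pool.Agent.V8H12.X49

open Polynomial

section
variable {p : ℕ} [hp : Fact p.Prime]

theorem norm_lt_iff (x : ℤ_[p]) : ‖x‖ < 1 ↔ PadicInt.toZMod x = 0 := by
  rw [PadicInt.norm_lt_one_iff_dvd, ← Ideal.mem_span_singleton, ← PadicInt.maximalIdeal_eq_span_p,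
    ← PadicInt.ker_toZMod, RingHom.mem_ker]

theorem norm_eq_iff (x : ℤ_[p]) : ‖x‖ = 1 ↔ PadicInt.toZMod x ≠ 0 := by
  rw [ne_eq, ← norm_lt_iff, not_lt]
  exact ⟨fun h => h.ge, fun h => le_antisymm x.norm_le_one h⟩

/-- Hensel for a simple root -/
theorem hensel (F : ℤ[X]) (x : ZMod p) (h1 : (F.map (Int.castRingHom (ZMod p))).eval x = 0)
    (h2 : (F.derivative.map (Int.castRingHom (ZMod p))).eval x ≠ 0) :
    ∃ z : ℤ_[p], (F.map (Int.castRingHom ℤ_[p])).eval z = 0 := by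
  obtain ⟨a, ha⟩ := ZMod.ringHom_surjective (PadicInt.toZMod (p := p)) x
  have key : ∀ G : ℤ[X], PadicInt.toZMod ((G.map (Int.castRingHom ℤ_[p])).eval a) =
      (G.map (Int.castRingHom (ZMod p))).eval x := by
    intro G
    rw [← ha, eval_map, eval_map, hom_eval₂]
    congr 1
    exact RingHom.ext_int _ _
  have e1 : ‖(F.map (Int.castRingHom ℤ_[p])).eval a‖ < 1 := by
    rw [norm_lt_iff, key]
    exact h1
  have e2 : ‖(F.derivative.map (Int.castRingHom ℤ_[p])).eval a‖ = 1 := by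
    rw [norm_eq_iff, key]
    exact h2
  obtain ⟨z, hz, -⟩ := hensels_lemma (p := p) (F := F.map (Int.castRingHom ℤ_[p])) (a := a) (by
    rw [derivative_map]
    simp only [coe_aeval_eq_eval]
    rw [e2, one_pow]
    exact e1)
  exact ⟨z, by rwa [coe_aeval_eq_eval] at hz⟩

theorem sq_unit (h2 : (2 : ZMod p) ≠ 0) (u : ℤ) (hu : (u : ZMod p) ≠ 0)
    (hs : IsSquare (u : ZMod p)) : ∃ z : ℤ_[p], z ^ 2 = u := by
  obtain ⟨x, hx⟩ := hs
  have hx0 : x ≠ 0 := by
    rintro rfl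
    rw [mul_zero] at hx
    exact hu hx
  obtain ⟨z, hz⟩ := hensel (p := p) (X ^ 2 - C u) x (by
    simp [hx]; ring) (by
    simp only [derivative_sub, derivative_X_pow, derivative_C, sub_zero, Polynomial.map_mul,
      Polynomial.map_pow, map_X, eval_mul, eval_pow, eval_X]
    simp
    exact ⟨h2, hx0⟩)
  refine ⟨z, ?_⟩
  simp at hz
  linear_combination hz

end

theorem sq_two (u : ℤ) (hu : u % 8 = 1) : ∃ z : ℤ_[2], z ^ 2 = u := by
  obtain ⟨k, hk⟩ : (8 : ℤ) ∣ 1 - u := Int.dvd_of_emod_eq_zero (by omega)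
  obtain ⟨z, hz, -⟩ := hensels_lemma (p := 2) (F := X ^ 2 - C (u : ℤ_[2])) (a := (1 : ℤ_[2])) (by
    simp only [derivative_sub, derivative_X_pow, derivative_C, sub_zero, coe_aeval_eq_eval, eval_sub,
      eval_pow, eval_X, eval_C, eval_mul, one_pow]
    have e1 : (1 : ℤ_[2]) - u = (2 : ℤ_[2]) ^ 3 * k := by
      have : ((1 - u : ℤ) : ℤ_[2]) = ((8 * k : ℤ) : ℤ_[2]) := by rw [hk]
      push_cast at this
      rw [this]; ring
    have e2 : ‖(2 : ℤ_[2])‖ = 2⁻¹ := by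
      have := PadicInt.norm_p (p := 2)
      exact_mod_cast this
    rw [e1, norm_mul, norm_pow, e2]
    have e3 : ‖((2 : ℕ) : ℤ_[2]) * 1‖ = 2⁻¹ := by
      rw [mul_one]
      exact_mod_cast PadicInt.norm_p (p := 2)
    simp only [Nat.cast_ofNat, mul_one] at e3 ⊢
    rw [e2]
    have h4 := (k : ℤ_[2]).norm_le_one
    have h5 := norm_nonneg (k : ℤ_[2])
    norm_num
    nlinarith)
  refine ⟨z, ?_⟩
  simp [coe_aeval_eq_eval] at hz
  linear_combination hz

end Pool.Agent.V8H12.X49
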