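import Mathlib
import Pool.Agent.V8H12.X49.Hen

/-!
# Points of the quartics modulo a good prime
-/

set_option autoImplicit false

namespace Pool.Agent.V8H12.X49

open Polynomial

section
variable {p : ℕ} [hp : Fact p.Prime]

theorem sep (h2 : (2 : ZMod p) ≠ 0) {κ c : ZMod p} (hc : c ≠ 0) (hΔ : κ ^ 2 - 4 * c ≠ 0) :
    (X ^ 4 + C κ * X ^ 2 + C c : (ZMod p)[X]).Separable := by
  set k := 2 * c * (κ ^ 2 - 4 * c) with hk
  have hk0 : k ≠ 0 := mul_ne_zero (mul_ne_zero h2 hc) hΔ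
  rw [Polynomial.separable_def]
  have hder : derivative (X ^ 4 + C κ * X ^ 2 + C c : (ZMod p)[X]) = 4 * X ^ 3 + 2 * C κ * X := by
    simp only [derivative_add, derivative_X_pow, derivative_C, derivative_C_mul, add_zero]
    simp only [Nat.cast_ofNat, map_ofNat]
    norm_num
    ring
  refine ⟨C k⁻¹ * (4 * (C κ * X ^ 2 - 2 * C c + C κ ^ 2) - 2 * C κ ^ 2),
    C k⁻¹ * (-X * (C κ * X ^ 2 - 2 * C c + C κ ^ 2)), ?_⟩
  rw [hder]
  have e : C k = (2 * C c * (C κ ^ 2 - 4 * C c) : (ZMod p)[X]) := by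
    rw [hk]
    simp only [C_mul, C_sub, C_pow, map_ofNat]
  have e2 : (C k⁻¹ * C k : (ZMod p)[X]) = 1 := by
    rw [← C_mul, inv_mul_cancel₀ hk0, C_1]
  calc _ = C k⁻¹ * (2 * C c * (C κ ^ 2 - 4 * C c)) := by ring
    _ = 1 := by rw [← e, e2]

theorem weil_pt (h11 : 11 ≤ p) {P κ c : ZMod p} (hP : P ≠ 0) (hc : c ≠ 0)
    (hΔ : κ ^ 2 - 4 * c ≠ 0) : ∃ x : ZMod p, IsSquare (P * (x ^ 4 + κ * x ^ 2 + c)) := by
  by_contra hcon
  push Not at hcon
  have h2 : (2 : ZMod p) ≠ 0 := by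
    intro h
    have h1 : ((2 : ℕ) : ZMod p) = 0 := by exact_mod_cast h
    rw [ZMod.natCast_eq_zero_iff] at h1
    have := Nat.le_of_dvd (by norm_num) h1
    omega
  have hF : ringChar (ZMod p) ≠ 2 := by
    rw [ZMod.ringChar_zmod_n]
    omega
  set g : (ZMod p)[X] := X ^ 4 + C κ * X ^ 2 + C c with hg
  have hgd : g.natDegree = 4 := by
    rw [hg]
    compute_degree!
  have hfd : (C P * g).natDegree = 4 := by rw [natDegree_C_mul hP, hgd]
  have hns : ∀ (a : ZMod p) (h : (ZMod p)[X]), C P * g ≠ C a * h ^ 2 := by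
    intro a h heq
    have h3 : h * h ∣ g := by
      have e1 : g = C (P⁻¹ * a) * (h * h) := by
        rw [C_mul, mul_assoc, ← sq, ← heq, ← mul_assoc, ← C_mul, inv_mul_cancel₀ hP, C_1, one_mul]
      exact ⟨C (P⁻¹ * a), by rw [mul_comm]; exact e1⟩
    have h4 := (sep h2 hc hΔ).squarefree h h3
    have h5 : h.natDegree = 0 := natDegree_eq_zero_of_isUnit h4
    have h6 : (C a * h ^ 2).natDegree = 0 := by
      refine Nat.le_zero.1 ((natDegree_C_mul_le a _).trans ?_)
      rw [natDegree_pow, h5, mul_zero]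
    rw [← heq, hfd] at h6
    omega
  have hw := Pool.Agent.H341R2.Sharp.weil_sharp hF (C P * g) (by omega) hns
  have hsum : ∑ x : ZMod p, (quadraticChar (ZMod p) ((C P * g).eval x) : ℝ) = -(p : ℝ) := by
    have h1 : ∀ x : ZMod p, (quadraticChar (ZMod p) ((C P * g).eval x) : ℝ) = -1 := by
      intro x
      have h3 : (C P * g).eval x = P * (x ^ 4 + κ * x ^ 2 + c) := by
        rw [hg]
        simp
      rw [h3, (quadraticChar_neg_one_iff_not_isSquare).2 (hcon x)]
      norm_num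
    rw [Finset.sum_congr rfl fun x _ => h1 x, Finset.sum_const, Finset.card_univ, ZMod.card]
    simp
  rw [hsum, hfd, abs_neg, abs_of_nonneg (Nat.cast_nonneg p), ZMod.card] at hw
  have h3 : (3 : ℝ) < Real.sqrt p := by
    rw [Real.lt_sqrt (by norm_num)]
    have : (11 : ℝ) ≤ p := by exact_mod_cast h11
    norm_num
    linarith
  have h4 : Real.sqrt p * Real.sqrt p = p := Real.mul_self_sqrt (Nat.cast_nonneg p)
  push_cast at hw
  nlinarith

end

end Pool.Agent.V8H12.X49
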