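import Mathlib
import Pool.Agent.V8H12.X49.Wei
import Pool.Agent.V8H12.X49.Sel

/-!
# The kernel vectors give everywhere locally soluble quartics
-/

set_option autoImplicit false

namespace Pool.Agent.V8H12.X49

open Polynomial

section
variable {p : ℕ} [hp : Fact p.Prime]

theorem Sol.of_int {α β γ : ℤ} (N M e : ℤ_[p]) (h : M ≠ 0 ∨ e ≠ 0)
    (h1 : N ^ 2 = α * M ^ 4 + β * M ^ 2 * e ^ 2 + γ * e ^ 4) : Sol ℚ_[p] α β γ := by
  refine ⟨N, M, e, ?_, ?_⟩
  · rcases h with h | h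
    · exact Or.inl fun h' => h (Subtype.ext h')
    · exact Or.inr fun h' => h (Subtype.ext h')
  · have h2 := congrArg (fun x : ℤ_[p] => (x : ℚ_[p])) h1
    push_cast at h2
    exact h2

theorem solA {P β γ : ℤ} (h2 : (2 : ZMod p) ≠ 0) (hP : (P : ZMod p) ≠ 0)
    (hs : IsSquare (P : ZMod p)) : Sol ℚ_[p] P β γ := by
  obtain ⟨z, hz⟩ := sq_unit h2 P hP hs
  exact Sol.of_int z 1 0 (Or.inl one_ne_zero) (by rw [hz]; ring)

theorem solB {P β c c0 : ℤ} (h2 : (2 : ZMod p) ≠ 0) (hP : ((c0 * P : ℤ) : ZMod p) ≠ 0)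
    (hs : IsSquare ((c0 * P : ℤ) : ZMod p)) : Sol ℚ_[p] P β (c0 * P * c ^ 2) := by
  obtain ⟨z, hz⟩ := sq_unit h2 (c0 * P) hP hs
  exact Sol.of_int (c * z) 0 1 (Or.inr one_ne_zero) (by
    rw [mul_pow, hz]; push_cast; ring)

theorem solH {P κ c c0 : ℤ} (x : ZMod p) (h1 : x ^ 4 + κ * c * x ^ 2 + c0 * c ^ 2 = 0)
    (h2 : 4 * x ^ 3 + 2 * (κ * c * x) ≠ 0) : Sol ℚ_[p] P (κ * (P * c)) (c0 * P * c ^ 2) := by
  obtain ⟨z, hz⟩ := hensel (p := p) (X ^ 4 + C (κ * c) * X ^ 2 + C (c0 * c ^ 2)) x (by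
    simp only [Polynomial.map_add, Polynomial.map_mul, Polynomial.map_pow, map_X, map_C, eval_add,
      eval_mul, eval_pow, eval_X, eval_C]
    simp
    linear_combination h1) (by
    simp only [derivative_add, derivative_X_pow, derivative_C, derivative_C_mul, add_zero,
      Polynomial.map_add, Polynomial.map_mul, Polynomial.map_pow, map_X, map_C, eval_add,
      eval_mul, eval_pow, eval_X, eval_C]
    simp
    intro h
    apply h2
    linear_combination h)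
  refine Sol.of_int 0 z 1 (Or.inr one_ne_zero) ?_
  simp only [Polynomial.map_add, Polynomial.map_mul, Polynomial.map_pow, map_X, map_C, eval_add,
      eval_mul, eval_pow, eval_X, eval_C] at hz
  simp at hz
  push_cast
  linear_combination -P * hz

/-- the good primes at least `11` -/
theorem solW (h11 : 11 ≤ p) {P κ c c0 : ℤ} (hP : (P : ZMod p) ≠ 0)
    (hc : ((c0 * c ^ 2 : ℤ) : ZMod p) ≠ 0) (hΔ : ((κ ^ 2 - 4 * c0 : ℤ) : ZMod p) ≠ 0) :
    Sol ℚ_[p] P (κ * (P * c)) (c0 * P * c ^ 2) := by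
  have h2 : (2 : ZMod p) ≠ 0 := by
    intro h
    have h1 : ((2 : ℕ) : ZMod p) = 0 := by exact_mod_cast h
    rw [ZMod.natCast_eq_zero_iff] at h1
    have := Nat.le_of_dvd (by norm_num) h1
    omega
  push_cast at hc hΔ
  have hc0 : (c0 : ZMod p) ≠ 0 := left_ne_zero_of_mul hc
  have hcc : (c : ZMod p) ≠ 0 := by
    intro h
    apply hc
    rw [h]
    ring
  obtain ⟨x, hx⟩ := weil_pt h11 (κ := κ * c) (c := c0 * c ^ 2) hP hc (by
    have e : ((κ : ZMod p) * c) ^ 2 - 4 * (c0 * c ^ 2) = (κ ^ 2 - 4 * c0) * c ^ 2 := by ring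
    rw [e]
    exact mul_ne_zero hΔ (pow_ne_zero 2 hcc))
  by_cases h0 : x ^ 4 + κ * c * x ^ 2 + c0 * c ^ 2 = 0
  · refine solH x h0 ?_
    have hx0 : x ≠ 0 := by
      rintro rfl
      apply hc
      linear_combination h0
    intro h3
    have h4 : 2 * x * (2 * x ^ 2 + κ * c) = 0 := by linear_combination h3
    rcases mul_eq_zero.1 h4 with h5 | h5
    · exact mul_ne_zero h2 hx0 h5
    · have h6 : ((κ : ZMod p) ^ 2 - 4 * c0) * c ^ 2 = 0 := by
        linear_combination (κ * c + 2 * x ^ 2) * h5 - 4 * h0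
      exact mul_ne_zero hΔ (pow_ne_zero 2 hcc) h6
  · obtain ⟨a, ha⟩ : ∃ a : ℤ, (a : ZMod p) = x := ⟨x.val, by simp⟩
    have e : ((P * (a ^ 4 + κ * c * a ^ 2 + c0 * c ^ 2) : ℤ) : ZMod p) =
        P * (x ^ 4 + κ * c * x ^ 2 + c0 * c ^ 2) := by
      push_cast
      rw [ha]
    obtain ⟨z, hz⟩ := sq_unit h2 (P * (a ^ 4 + κ * c * a ^ 2 + c0 * c ^ 2))
      (by rw [e]; exact mul_ne_zero hP h0) (by rw [e]; exact hx)
    exact Sol.of_int z a 1 (Or.inr one_ne_zero) (by rw [hz]; push_cast; ring)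

/-- the roots at the primes of `T` -/
theorem rootT1 (h2 : (2 : ZMod p) ≠ 0) (h7 : (7 : ZMod p) ≠ 0) {c r : ZMod p} (hc : c ≠ 0)
    (hr : r ^ 2 = -7) (hs : IsSquare (c * r)) :
    ∃ x : ZMod p, x ^ 4 + 21 * c * x ^ 2 + 112 * c ^ 2 = 0 ∧ 4 * x ^ 3 + 2 * (21 * c * x) ≠ 0 := by
  obtain ⟨y, hy⟩ := hs
  obtain ⟨h, hh⟩ : ∃ h : ZMod p, 2 * h = 1 := ⟨2⁻¹, mul_inv_cancel₀ h2⟩
  have hr0 : r ≠ 0 := by
    rintro rfl
    apply h7
    linear_combination hr
  have h4 : (4 : ZMod p) ≠ 0 := by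
    have e : (4 : ZMod p) = 2 * 2 := by norm_num
    rw [e]
    exact mul_ne_zero h2 h2
  have hx2 : 2 * (y * (-3 - r) * h) ^ 2 = c * (r - 21) := by
    have e1 : 2 * (2 * (y * (-3 - r) * h) ^ 2) = 2 * (c * (r - 21)) := by
      have e2 : 2 * (2 * (y * (-3 - r) * h) ^ 2) = (y * y) * (9 + 6 * r + r ^ 2) * (2 * h) ^ 2 := by ring
      rw [e2, hh, ← hy, hr]
      linear_combination 6 * c * hr
    exact mul_left_cancel₀ h2 e1
  have hroot : (y * (-3 - r) * h) ^ 4 + 21 * c * (y * (-3 - r) * h) ^ 2 + 112 * c ^ 2 = 0 := by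
    have e1 : 4 * ((y * (-3 - r) * h) ^ 4 + 21 * c * (y * (-3 - r) * h) ^ 2 + 112 * c ^ 2) = 0 := by
      have e2 : 4 * ((y * (-3 - r) * h) ^ 4 + 21 * c * (y * (-3 - r) * h) ^ 2 + 112 * c ^ 2) =
        (2 * (y * (-3 - r) * h) ^ 2) ^ 2 + 42 * c * (2 * (y * (-3 - r) * h) ^ 2) + 448 * c ^ 2 := by ring
      rw [e2, hx2]
      linear_combination c ^ 2 * hr
    exact (mul_eq_zero.1 e1).resolve_left h4
  refine ⟨y * (-3 - r) * h, hroot, ?_⟩
  set x := y * (-3 - r) * h with hx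
  have hx0 : x ≠ 0 := by
    intro h0
    rw [h0] at hroot
    have e : (2 : ZMod p) ^ 4 * 7 * c ^ 2 = 0 := by linear_combination hroot
    exact mul_ne_zero (mul_ne_zero (pow_ne_zero 4 h2) h7) (pow_ne_zero 2 hc) e
  have e : 4 * x ^ 3 + 2 * (21 * c * x) = 2 * x * (c * r) := by linear_combination 2 * x * hx2
  rw [e]
  exact mul_ne_zero (mul_ne_zero h2 hx0) (mul_ne_zero hc hr0)

theorem rootT2 (h2 : (2 : ZMod p) ≠ 0) (h7 : (7 : ZMod p) ≠ 0) {i : ZMod p} (hi : i ^ 2 = -1)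
    {c r : ZMod p} (hc : c ≠ 0) (hr : r ^ 2 = -7) (hs : IsSquare (c * r)) :
    ∃ x : ZMod p, x ^ 4 + -42 * c * x ^ 2 + -7 * c ^ 2 = 0 ∧ 4 * x ^ 3 + 2 * (-42 * c * x) ≠ 0 := by
  obtain ⟨y, hy⟩ := hs
  obtain ⟨h, hh⟩ : ∃ h : ZMod p, 2 * h = 1 := ⟨2⁻¹, mul_inv_cancel₀ h2⟩
  obtain ⟨w, hw⟩ : ∃ w : ZMod p, w = -(i * r) := ⟨_, rfl⟩
  have hw2 : w ^ 2 = 7 := by
    rw [hw]
    linear_combination r ^ 2 * hi - hr
  have hw0 : w ≠ 0 := by
    intro h0
    apply h7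
    rw [← hw2, h0]; ring
  have hx2 : (y * (1 - i) * (3 + w) * h) ^ 2 = c * (8 * w + 21) := by
    have e4 : (4 : ZMod p) ≠ 0 := by
      have e : (4 : ZMod p) = 2 * 2 := by norm_num
      rw [e]
      exact mul_ne_zero h2 h2
    have e1 : 4 * (y * (1 - i) * (3 + w) * h) ^ 2 = 4 * (c * (8 * w + 21)) := by
      have e2 : 4 * (y * (1 - i) * (3 + w) * h) ^ 2 =
        (y * y) * (1 - 2 * i + i ^ 2) * (9 + 6 * w + w ^ 2) * (2 * h) ^ 2 := by ring
      rw [e2, hh, ← hy, hi, hw2]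
      have e3 : c * r * (1 - 2 * i + -1) * (9 + 6 * w + 7) * 1 ^ 2 = 2 * c * (-(i * r)) * (16 + 6 * w) := by ring
      rw [e3, ← hw]
      linear_combination 12 * c * hw2
    exact mul_left_cancel₀ e4 e1
  set x := y * (1 - i) * (3 + w) * h with hx
  refine ⟨x, ?_, ?_⟩
  · have e : x ^ 4 + -42 * c * x ^ 2 + -7 * c ^ 2 = (x ^ 2) ^ 2 + -42 * c * x ^ 2 + -7 * c ^ 2 := by ring
    rw [e, hx2]
    linear_combination 64 * c ^ 2 * hw2
  · have hx0 : x ≠ 0 := by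
      intro h0
      have hroot : (x ^ 2) ^ 2 + -42 * c * x ^ 2 + -7 * c ^ 2 = 0 := by
        rw [hx2]
        linear_combination 64 * c ^ 2 * hw2
      rw [h0] at hroot
      have e : (7 : ZMod p) * c ^ 2 = 0 := by linear_combination -hroot
      exact mul_ne_zero h7 (pow_ne_zero 2 hc) e
    have e : 4 * x ^ 3 + 2 * (-42 * c * x) = 2 ^ 5 * x * (c * w) := by linear_combination 4 * x * hx2
    rw [e]
    exact mul_ne_zero (mul_ne_zero (pow_ne_zero 5 h2) hx0) (mul_ne_zero hc hw0)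

end

theorem mod8 {u v : ℤ} (h : (u : ZMod 8) = (v : ZMod 8)) : u % 8 = v % 8 :=
  (ZMod.intCast_eq_intCast_iff' u v 8).1 h

/-- the prime two, first curve -/
theorem two1 {P c : ℤ} (hP : P % 4 = 1) (hc : c % 4 = 1) :
    Sol ℚ_[2] P (21 * (P * c)) (112 * P * c ^ 2) := by
  rcases (by omega : P % 8 = 1 ∨ P % 8 = 5) with h | h
  · obtain ⟨z, hz⟩ := sq_two P h
    exact Sol.of_int z 1 0 (Or.inl one_ne_zero) (by rw [hz]; ring)
  · have hu : (P * (1 + 84 * c + 1792 * c ^ 2)) % 8 = 1 := by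
      have e1 : (P : ZMod 8) = ((5 : ℤ) : ZMod 8) := (ZMod.intCast_eq_intCast_iff' P 5 8).2 (by omega)
      have e2 : (c : ZMod 8) = ((1 : ℤ) : ZMod 8) ∨ (c : ZMod 8) = ((5 : ℤ) : ZMod 8) := by
        rcases (by omega : c % 8 = 1 ∨ c % 8 = 5) with h | h
        · left; exact (ZMod.intCast_eq_intCast_iff' c 1 8).2 (by omega)
        · right; exact (ZMod.intCast_eq_intCast_iff' c 5 8).2 (by omega)
      refine mod8 (v := 1) ?_
      push_cast
      rw [e1]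
      rcases e2 with e2 | e2 <;> rw [e2] <;> decide
    obtain ⟨z, hz⟩ := sq_two _ hu
    exact Sol.of_int z 1 2 (Or.inl one_ne_zero) (by rw [hz]; push_cast; ring)

/-- the prime two, second curve -/
theorem two2 {P c : ℤ} (hP : P % 4 = 1) (hc : c % 4 = 1) :
    Sol ℚ_[2] P (-42 * (P * c)) (-7 * P * c ^ 2) := by
  rcases (by omega : P % 8 = 1 ∨ P % 8 = 5) with h | h
  · obtain ⟨z, hz⟩ := sq_two P h
    exact Sol.of_int z 1 0 (Or.inl one_ne_zero) (by rw [hz]; ring)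
  · have e1 : (P : ZMod 8) = ((5 : ℤ) : ZMod 8) := (ZMod.intCast_eq_intCast_iff' P 5 8).2 (by omega)
    rcases (by omega : c % 8 = 1 ∨ c % 8 = 5) with h8 | h8
    · obtain ⟨k, hk⟩ : ∃ k, c = 1 + 8 * k := ⟨c / 8, by omega⟩
      have hu : (-P * (3 + 28 * k * (k + 1))) % 8 = 1 := by
        refine mod8 (v := 1) ?_
        push_cast
        rw [e1]
        generalize (k : ZMod 8) = k'
        revert k'
        decide
      obtain ⟨z, hz⟩ := sq_two _ hu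
      exact Sol.of_int (4 * z) 1 1 (Or.inl one_ne_zero) (by
        rw [mul_pow, hz, hk]; push_cast; ring)
    · obtain ⟨e, j, hej⟩ : ∃ e j : ℤ, c * e ^ 2 = 13 + 32 * j := by
        rcases (by omega : c % 32 = 5 ∨ c % 32 = 13 ∨ c % 32 = 21 ∨ c % 32 = 29) with h | h | h | h
        · exact ⟨3, (c * 9 - 13) / 32, by omega⟩
        · exact ⟨1, (c - 13) / 32, by omega⟩
        · exact ⟨5, (c * 25 - 13) / 32, by omega⟩
        · exact ⟨7, (c * 49 - 13) / 32, by omega⟩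
      have hu : (-P * (27 + 112 * j * (j + 1))) % 8 = 1 := by
        refine mod8 (v := 1) ?_
        push_cast
        rw [e1]
        generalize (j : ZMod 8) = k'
        revert k'
        decide
      obtain ⟨z, hz⟩ := sq_two _ hu
      have hej' : (c : ℤ_[2]) * e ^ 2 = 13 + 32 * j := by exact_mod_cast congrArg (Int.cast (R := ℤ_[2])) hej
      exact Sol.of_int (8 * z) 1 e (Or.inl one_ne_zero) (by
        rw [mul_pow, hz]
        push_cast
        linear_combination (-P * (-42 - 7 * (c * e ^ 2 + (13 + 32 * j)))) * hej')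

end Pool.Agent.V8H12.X49
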