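import Mathlib
import Pool.Agent.V8H12.X49.Low

/-!
# The Selmer sets are given by the kernel of the matrix
-/

set_option autoImplicit false

namespace Pool.Agent.V8H12.X49

open Polynomial

theorem prod_mod4 {D : ℕ} (hD : Adm D) {T : Finset ℕ} (hT : T ⊆ D.primeFactors) :
    (∏ q ∈ T, (q : ℤ)) % 4 = 1 := by
  refine Finset.prod_induction (fun q : ℕ => (q : ℤ)) (fun n => n % 4 = 1) (fun a b ha hb => ?_) rfl
    fun q hq => ?_
  · show a * b % 4 = 1
    rw [Int.mul_emod, ha, hb]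
    rfl
  · have := hD.2 q (hT hq)
    show (q : ℤ) % 4 = 1
    omega

theorem D_eq {D : ℕ} (hD : Adm D) {T : Finset ℕ} (hT : T ⊆ D.primeFactors) :
    (D : ℤ) = (∏ q ∈ T, (q : ℤ)) * ∏ q ∈ D.primeFactors \ T, (q : ℤ) := by
  rw [mul_comm, Finset.prod_sdiff hT]
  have h := Nat.prod_primeFactors_of_squarefree hD.1
  conv_lhs => rw [← h]
  push_cast
  rfl

theorem prod_ne {D : ℕ} {p : ℕ} [hp : Fact p.Prime] {S : Finset ℕ} (hS : S ⊆ D.primeFactors)
    (hpS : p ∉ S) : ((∏ q ∈ S, (q : ℤ) : ℤ) : ZMod p) ≠ 0 := by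
  push_cast
  exact (lam_prod_nonsq hS hpS).1

theorem prod_lam {D : ℕ} {p : ℕ} [hp : Fact p.Prime] {S : Finset ℕ} (hS : S ⊆ D.primeFactors)
    (hpS : p ∉ S) : lam ((∏ q ∈ S, (q : ℤ) : ℤ) : ZMod p) = ∑ q ∈ S, nonsq p q := by
  push_cast
  exact (lam_prod_nonsq hS hpS).2

theorem lam_cases {F : Type} [Field F] (x : F) : lam x = 0 ∨ lam x = 1 := by
  unfold lam
  split_ifs
  · exact Or.inl rfl
  · exact Or.inr rfl

/-- if `c0` is not a square modulo `p` -/
theorem solNS {p : ℕ} [hp : Fact p.Prime] (h2 : (2 : ZMod p) ≠ 0) {P β c c0 : ℤ}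
    (hP : (P : ZMod p) ≠ 0) (hc0 : (c0 : ZMod p) ≠ 0) (hns : ¬ IsSquare (c0 : ZMod p)) :
    Sol ℚ_[p] P β (c0 * P * c ^ 2) := by
  rcases lam_cases (P : ZMod p) with h | h
  · exact solA h2 hP ((lam_zero_iff _).1 h)
  · refine solB h2 (by push_cast; exact mul_ne_zero hc0 hP) ?_
    rw [← lam_zero_iff]
    push_cast
    rw [lam_mul hc0 hP, h, lam_eq_one hns]
    decide

theorem three1 : ∀ a b : ZMod 3, ¬ IsSquare a → b ≠ 0 → a * (1 + 21 * b + 112 * b ^ 2) = 1 := by
  decide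

theorem three2 : ¬ IsSquare (((-7 : ℤ)) : ZMod 3) := by decide

theorem five1 : ¬ IsSquare (((112 : ℤ)) : ZMod 5) := by decide

theorem five2 : ¬ IsSquare (((-7 : ℤ)) : ZMod 5) := by decide

theorem one_ne3 : (1 : ZMod 3) ≠ 0 := by decide

theorem one_sq3 : IsSquare (1 : ZMod 3) := ⟨1, by decide⟩

theorem base {D : ℕ} (hD : Adm D) {κ c0 : ℤ} (hk : Kind κ c0) {T : Finset ℕ} (hT : T ⊆ split D)
    (hker : (mat D).mulVec (ind D T) = 0) (p : ℕ) [hp : Fact p.Prime] :
    Sol (Padic p) (∏ q ∈ T, (q : ℤ))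
      (κ * ((∏ q ∈ T, (q : ℤ)) * ∏ q ∈ D.primeFactors \ T, (q : ℤ)))
      (c0 * (∏ q ∈ T, (q : ℤ)) * (∏ q ∈ D.primeFactors \ T, (q : ℤ)) ^ 2) := by
  classical
  have hTD := hT.trans (split_sub D)
  have hSD : D.primeFactors \ T ⊆ D.primeFactors := Finset.sdiff_subset
  obtain ⟨P, hP⟩ : ∃ P, P = ∏ q ∈ T, (q : ℤ) := ⟨_, rfl⟩
  obtain ⟨c, hc⟩ : ∃ c, c = ∏ q ∈ D.primeFactors \ T, (q : ℤ) := ⟨_, rfl⟩
  have hP4 := prod_mod4 hD hTD
  have hc4 := prod_mod4 hD hSD
  rw [← hP] at hP4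
  rw [← hc] at hc4
  by_cases hp2 : p = 2
  · subst hp2
    rw [← hP, ← hc]
    rcases hk with ⟨rfl, rfl⟩ | ⟨rfl, rfl⟩
    · exact two1 hP4 hc4
    · exact two2 hP4 hc4
  have h2 : (2 : ZMod p) ≠ 0 := by
    intro h
    have h1 : ((2 : ℕ) : ZMod p) = 0 := by exact_mod_cast h
    rw [ZMod.natCast_eq_zero_iff] at h1
    exact hp2 ((Nat.prime_dvd_prime_iff_eq hp.out Nat.prime_two).1 h1)
  by_cases hp7 : p = 7
  · subst hp7
    obtain ⟨h3, h4⟩ := prod_sq7 hD hT
    exact solA h2 h4 h3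
  have h7 : (7 : ZMod p) ≠ 0 := by
    intro h
    have h1 : ((7 : ℕ) : ZMod p) = 0 := by exact_mod_cast h
    rw [ZMod.natCast_eq_zero_iff] at h1
    exact hp7 ((Nat.prime_dvd_prime_iff_eq hp.out (by norm_num)).1 h1)
  have h112 : (112 : ZMod p) ≠ 0 := by
    have e : (112 : ZMod p) = 2 ^ 4 * 7 := by norm_num
    rw [e]
    exact mul_ne_zero (pow_ne_zero 4 h2) h7
  have hc0 : (c0 : ZMod p) ≠ 0 := by
    rcases hk with ⟨-, rfl⟩ | ⟨-, rfl⟩
    · push_cast; exact h112
    · push_cast; exact neg_ne_zero.2 h7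
  by_cases hpD : p ∈ D.primeFactors
  · have h4 := hD.2 p hpD
    have hneg := neg_one_sq (p := p) h4
    by_cases hps : p ∈ split D
    · have hsq7 : IsSquare (-7 : ZMod p) := (Finset.mem_filter.1 hps).2
      have hrow := congrFun hker ⟨p, hps⟩
      rw [mulVec_ind hT] at hrow
      change (if p ∈ T then nonfourth p + ∑ l ∈ D.primeFactors.erase p, nonsq p l else 0) +
        ∑ j ∈ T.erase p, nonsq p j = 0 at hrow
      by_cases hpT : p ∈ T
      · obtain ⟨r, hr'⟩ := hsq7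
        have hr : r ^ 2 = -7 := by rw [hr']; ring
        have hr0 : r ≠ 0 := by
          rintro rfl
          apply h7
          linear_combination hr
        rw [if_pos hpT] at hrow
        have hpS : p ∉ D.primeFactors \ T := fun h => (Finset.mem_sdiff.1 h).2 hpT
        have hcne : (c : ZMod p) ≠ 0 := by rw [hc]; exact prod_ne hSD hpS
        have hclam : lam (c : ZMod p) = ∑ q ∈ D.primeFactors \ T, nonsq p q := by
          rw [hc]; exact prod_lam hSD hpS
        have hsum : ∑ l ∈ D.primeFactors.erase p, nonsq p l =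
            ∑ q ∈ D.primeFactors \ T, nonsq p q + ∑ j ∈ T.erase p, nonsq p j := by
          rw [← Finset.sum_sdiff (Finset.erase_subset_erase p hTD)]
          congr 1
          refine Finset.sum_congr ?_ fun _ _ => rfl
          ext q
          simp only [Finset.mem_sdiff, Finset.mem_erase]
          constructor
          · rintro ⟨⟨h1, h2⟩, h3⟩
            exact ⟨h2, fun h => h3 ⟨h1, h⟩⟩
          · rintro ⟨h1, h3⟩
            refine ⟨⟨?_, h1⟩, fun h => h3 h.2⟩
            rintro rfl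
            exact h3 hpT
        have hcr : IsSquare ((c : ZMod p) * r) := by
          rw [← lam_zero_iff, lam_mul hcne hr0, hclam, ← nonfourth_eq h4 hr]
          rw [hsum] at hrow
          have h11 : ∀ a b d : ZMod 2, a + (b + d) + d = 0 → b + a = 0 := by decide
          exact h11 _ _ _ hrow
        rw [← hP, ← hc]
        rcases hk with ⟨rfl, rfl⟩ | ⟨rfl, rfl⟩
        · obtain ⟨x, hx1, hx2⟩ := rootT1 h2 h7 hcne hr hcr
          exact solH x (by push_cast; exact hx1) (by push_cast; exact hx2)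
        · obtain ⟨i, hi⟩ := exists_i (p := p) h4
          obtain ⟨x, hx1, hx2⟩ := rootT2 h2 h7 hi hcne hr hcr
          exact solH x (by push_cast; exact hx1) (by push_cast; exact hx2)
      · rw [if_neg hpT, zero_add, Finset.erase_eq_of_notMem hpT] at hrow
        refine solA h2 (prod_ne hTD hpT) ?_
        rw [← lam_zero_iff, prod_lam hTD hpT]
        exact hrow
    · have hpT : p ∉ T := fun h => hps (hT h)
      refine solNS h2 (prod_ne hTD hpT) hc0 ?_
      intro h
      apply hps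
      unfold split
      rw [Finset.mem_filter]
      refine ⟨hpD, ?_⟩
      rcases hk with ⟨-, rfl⟩ | ⟨-, rfl⟩
      · have h16 : IsSquare ((4 : ZMod p) * 4) := ⟨4, rfl⟩
        have h40 : (4 : ZMod p) ≠ 0 := by
          have e : (4 : ZMod p) = 2 * 2 := by norm_num
          rw [e]
          exact mul_ne_zero h2 h2
        have h6 := (hneg.mul h).div h16
        have e : (-7 : ZMod p) = -1 * ((112 : ℤ) : ZMod p) / (4 * 4) := by
          rw [eq_div_iff (mul_ne_zero h40 h40)]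
          norm_num
        rw [e]
        exact h6
      · push_cast at h
        exact h
  · have hpT : p ∉ T := fun h => hpD (hTD h)
    have hpS : p ∉ D.primeFactors \ T := fun h => hpD (hSD h)
    have hPne : (P : ZMod p) ≠ 0 := by rw [hP]; exact prod_ne hTD hpT
    have hcne : (c : ZMod p) ≠ 0 := by rw [hc]; exact prod_ne hSD hpS
    rw [← hP, ← hc]
    have h2le := hp.out.two_le
    by_cases hp11 : 11 ≤ p
    · refine solW hp11 hPne (by push_cast; exact mul_ne_zero hc0 (pow_ne_zero 2 hcne)) ?_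
      rcases hk with ⟨rfl, rfl⟩ | ⟨rfl, rfl⟩
      · have e : ((21 ^ 2 - 4 * 112 : ℤ) : ZMod p) = -7 := by norm_num
        rw [e]
        exact neg_ne_zero.2 h7
      · have e : (((-42) ^ 2 - 4 * -7 : ℤ) : ZMod p) = 2 ^ 8 * 7 := by norm_num
        rw [e]
        exact mul_ne_zero (pow_ne_zero 8 h2) h7
    · have hp35 : p = 3 ∨ p = 5 := by
        have h3 := hp.out
        interval_cases p
        · exact absurd rfl hp2
        · exact Or.inl rfl
        · exact absurd h3 (by norm_num)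
        · exact Or.inr rfl
        · exact absurd h3 (by norm_num)
        · exact absurd rfl hp7
        · exact absurd h3 (by norm_num)
        · exact absurd h3 (by norm_num)
        · exact absurd h3 (by norm_num)
      rcases hp35 with rfl | rfl
      · rcases hk with ⟨rfl, rfl⟩ | ⟨rfl, rfl⟩
        · rcases lam_cases (P : ZMod 3) with h | h
          · exact solA h2 hPne ((lam_zero_iff _).1 h)
          · have h5 : ¬ IsSquare (P : ZMod 3) := by
              intro h6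
              rw [lam_of_sq h6] at h
              exact absurd h (by decide)
            have hu : ((P * (1 + 21 * c + 112 * c ^ 2) : ℤ) : ZMod 3) = 1 := by
              push_cast
              exact three1 _ _ h5 hcne
            obtain ⟨z, hz⟩ := sq_unit h2 (P * (1 + 21 * c + 112 * c ^ 2))
              (by rw [hu]; exact one_ne3) (by rw [hu]; exact one_sq3)
            exact Sol.of_int z 1 1 (Or.inl one_ne_zero) (by rw [hz]; push_cast; ring)
        · exact solNS h2 hPne hc0 three2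
      · rcases hk with ⟨-, rfl⟩ | ⟨-, rfl⟩
        · exact solNS h2 hPne hc0 five1
        · exact solNS h2 hPne hc0 five2

theorem real_sol {P β γ : ℤ} (hP : 0 < P) : Sol ℝ P β γ := by
  have h : (0 : ℝ) ≤ P := by exact_mod_cast hP.le
  exact ⟨Real.sqrt P, 1, 0, Or.inl one_ne_zero, by rw [Real.sq_sqrt h]; ring⟩

theorem shift1 {K : Type} [Field K] [CharZero K] {P c : ℤ} (hc : c ≠ 0)
    (h : Sol K P (21 * (P * c)) (112 * P * c ^ 2)) :
    Sol K (7 * P) (21 * (P * c)) (16 * P * c ^ 2) := by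
  obtain ⟨N, M, e, h1, h2⟩ := h
  have hc' : (c : K) ≠ 0 := by exact_mod_cast hc
  refine ⟨4 * c * N, 4 * c * e, M, ?_, ?_⟩
  · rcases h1 with h | h
    · exact Or.inr h
    · exact Or.inl (mul_ne_zero (mul_ne_zero (by norm_num) hc') h)
  · rw [mul_pow, h2]
    push_cast
    ring

theorem shift2 {K : Type} [Field K] [CharZero K] {P c : ℤ} (hc : c ≠ 0)
    (h : Sol K P (-42 * (P * c)) (-7 * P * c ^ 2)) :
    Sol K (-7 * P) (-42 * (P * c)) (P * c ^ 2) := by
  obtain ⟨N, M, e, h1, h2⟩ := h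
  have hc' : (c : K) ≠ 0 := by exact_mod_cast hc
  refine ⟨c * N, c * e, M, ?_, ?_⟩
  · rcases h1 with h | h
    · exact Or.inr h
    · exact Or.inl (mul_ne_zero hc' h)
  · rw [mul_pow, h2]
    push_cast
    ring

theorem sqf_prod {D : ℕ} (hD : Adm D) {T : Finset ℕ} (hT : T ⊆ D.primeFactors) :
    Squarefree (∏ q ∈ T, (q : ℤ)) := by
  have h1 : Squarefree (∏ q ∈ T, q) := by
    have h2 : ∏ q ∈ T, q ∣ D := by
      conv_rhs => rw [← Nat.prod_primeFactors_of_squarefree hD.1]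
      exact Finset.prod_dvd_prod_of_subset _ _ _ hT
    exact hD.1.squarefree_of_dvd h2
  have h2 := Int.squarefree_natCast.2 h1
  push_cast at h2
  exact h2

theorem sqfU {D : ℕ} (hD : Adm D) {T : Finset ℕ} (hT : T ⊆ D.primeFactors) {U : ℤ} (hU : IsU U) :
    Squarefree (U * ∏ q ∈ T, (q : ℤ)) := by
  have h0 := sqf_prod hD hT
  have h1 : Squarefree (∏ q ∈ T, q) := by
    rw [← Int.squarefree_natCast]
    push_cast
    exact h0
  have hco : Nat.Coprime 7 (∏ q ∈ T, q) := by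
    refine Nat.Coprime.prod_right fun q hq => ?_
    rw [Nat.coprime_primes (by norm_num) (Nat.prime_of_mem_primeFactors (hT hq))]
    rintro rfl
    exact seven_notMem hD (hT hq)
  have e : (U * ∏ q ∈ T, (q : ℤ)).natAbs = U.natAbs * ∏ q ∈ T, q := by
    rw [Int.natAbs_mul]
    congr 1
    have e2 : (∏ q ∈ T, (q : ℤ)) = ((∏ q ∈ T, q : ℕ) : ℤ) := by push_cast; rfl
    rw [e2, Int.natAbs_natCast]
  rw [← Int.squarefree_natAbs, e]
  have h7 : Squarefree (7 * ∏ q ∈ T, q) :=
    (Nat.squarefree_mul hco).2 ⟨(Nat.Prime.prime (by norm_num : Nat.Prime 7)).squarefree, h1⟩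
  rcases hU with rfl | rfl | rfl | rfl
  · simpa using h1
  · simpa using h1
  · exact h7
  · exact h7

theorem mem1 {D : ℕ} (hD : Adm D) {T : Finset ℕ} (hT : T ⊆ split D)
    (hker : (mat D).mulVec (ind D T) = 0) {U : ℤ} (hU : U = 1 ∨ U = 7) :
    U * ∏ q ∈ T, (q : ℤ) ∈ SelSet (21 * D) (112 * (D : ℤ) ^ 2) := by
  have hTD := hT.trans (split_sub D)
  have hSD : D.primeFactors \ T ⊆ D.primeFactors := Finset.sdiff_subset
  have hpos := prodT_pos hTD
  have hcpos := prodT_pos hSD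
  have hDe := D_eq hD hTD
  have hb : ∀ (p : ℕ) [Fact p.Prime], _ := fun p _ => base hD (κ := 21) (c0 := 112)
    (Or.inl ⟨rfl, rfl⟩) hT hker p
  set P := ∏ q ∈ T, (q : ℤ) with hP
  set c := ∏ q ∈ D.primeFactors \ T, (q : ℤ) with hc
  have hc0 : c ≠ 0 := hcpos.ne'
  rcases hU with rfl | rfl
  · have e : 112 * (D : ℤ) ^ 2 = 1 * P * (112 * P * c ^ 2) := by rw [hDe]; ring
    refine ⟨sqfU hD hTD (Or.inl rfl), ⟨_, e⟩, real_sol (by rw [one_mul]; exact hpos), fun p _ => ?_⟩
    rw [e, Int.mul_ediv_cancel_left _ (by rw [one_mul]; exact hpos.ne'), hDe, one_mul]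
    exact hb p
  · have e : 112 * (D : ℤ) ^ 2 = 7 * P * (16 * P * c ^ 2) := by rw [hDe]; ring
    have h7 : 0 < 7 * P := by linarith
    refine ⟨sqfU hD hTD (Or.inr (Or.inr (Or.inl rfl))), ⟨_, e⟩, real_sol h7, fun p _ => ?_⟩
    rw [e, Int.mul_ediv_cancel_left _ h7.ne', hDe]
    exact shift1 hc0 (hb p)

theorem mem2 {D : ℕ} (hD : Adm D) {T : Finset ℕ} (hT : T ⊆ split D)
    (hker : (mat D).mulVec (ind D T) = 0) {U : ℤ} (hU : U = 1 ∨ U = -7) :
    U * ∏ q ∈ T, (q : ℤ) ∈ SelSet (-42 * D) (-7 * (D : ℤ) ^ 2) := by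
  have hTD := hT.trans (split_sub D)
  have hSD : D.primeFactors \ T ⊆ D.primeFactors := Finset.sdiff_subset
  have hpos := prodT_pos hTD
  have hcpos := prodT_pos hSD
  have hDe := D_eq hD hTD
  have hb : ∀ (p : ℕ) [Fact p.Prime], _ := fun p _ => base hD (κ := -42) (c0 := -7)
    (Or.inr ⟨rfl, rfl⟩) hT hker p
  set P := ∏ q ∈ T, (q : ℤ) with hP
  set c := ∏ q ∈ D.primeFactors \ T, (q : ℤ) with hc
  have hc0 : c ≠ 0 := hcpos.ne'
  rcases hU with rfl | rfl
  · have e : -7 * (D : ℤ) ^ 2 = 1 * P * (-7 * P * c ^ 2) := by rw [hDe]; ring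
    refine ⟨sqfU hD hTD (Or.inl rfl), ⟨_, e⟩, real_sol (by rw [one_mul]; exact hpos), fun p _ => ?_⟩
    rw [e, Int.mul_ediv_cancel_left _ (by rw [one_mul]; exact hpos.ne'), hDe, one_mul]
    exact hb p
  · have e : -7 * (D : ℤ) ^ 2 = -7 * P * (P * c ^ 2) := by rw [hDe]; ring
    have h7 : -7 * P ≠ 0 := by
      have := hpos.ne'
      exact mul_ne_zero (by norm_num) this
    refine ⟨sqfU hD hTD (Or.inr (Or.inr (Or.inr rfl))), ⟨_, e⟩, ?_, fun p _ => ?_⟩
    · rw [e, Int.mul_ediv_cancel_left _ h7, hDe]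
      exact shift2 hc0 (real_sol hpos)
    · rw [e, Int.mul_ediv_cancel_left _ h7, hDe]
      exact shift2 hc0 (hb p)

end Pool.Agent.V8H12.X49
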