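import Mathlib

/-!
# The change of the model, and the rank of a finite group
-/

set_option autoImplicit false

open WeierstrassCurve

namespace Pool.Agent.V8H12.X49

/-- the twist of `X_0(49)`, minimal model -/
def WM (d A : ℚ) : WeierstrassCurve ℚ := ⟨1, A, 0, -2 * d ^ 2, -d ^ 3⟩

/-- the model with the point `(0, 0)` -/
def WT (a b : ℚ) : WeierstrassCurve ℚ := { a₁ := 0, a₂ := a, a₃ := 0, a₄ := b, a₆ := 0 }

theorem delta_WM {d A : ℚ} (hA : 4 * A = -(3 * d + 1)) : (WM d A).Δ = -343 * d ^ 6 := by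
  have hA' : A = -(3 * d + 1) / 4 := by linarith
  unfold WM WeierstrassCurve.Δ WeierstrassCurve.b₂ WeierstrassCurve.b₄ WeierstrassCurve.b₆
    WeierstrassCurve.b₈
  simp only
  rw [hA']
  ring

theorem eq_tr {d A x y : ℚ} (hA : 4 * A = -(3 * d + 1))
    (h : (WT (21 * d) (112 * d ^ 2)).toAffine.Equation x y) :
    (WM d A).toAffine.Equation ((x + 8 * d) / 4) ((y - (x + 8 * d)) / 8) := by
  rw [Affine.equation_iff] at h ⊢
  unfold WT at h
  unfold WM
  simp only [toAffine] at h ⊢
  have hA' : A = -(3 * d + 1) / 4 := by linarith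
  rw [hA']
  linear_combination h / 64

theorem fin_tr {d A : ℚ} (hd : d ≠ 0) (hA : 4 * A = -(3 * d + 1))
    (hf : Finite (WM d A).toAffine.Point) :
    Finite (WT (21 * d) (112 * d ^ 2)).toAffine.Point := by
  have hΔ : (WM d A).toAffine.Δ ≠ 0 := by
    show (WM d A).Δ ≠ 0
    rw [delta_WM hA]
    exact mul_ne_zero (by norm_num) (pow_ne_zero 6 hd)
  let f : (WT (21 * d) (112 * d ^ 2)).toAffine.Point → (WM d A).toAffine.Point := fun P =>
    match P with
    | .zero => .zero
    | .some x y h => .some ((x + 8 * d) / 4) ((y - (x + 8 * d)) / 8)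
        ((Affine.equation_iff_nonsingular_of_Δ_ne_zero hΔ).1 (eq_tr hA h.1))
  refine Finite.of_injective f ?_
  rintro (_ | ⟨x, y, h⟩) (_ | ⟨x', y', h'⟩) he
  · rfl
  · exact absurd he (by simp [f])
  · exact absurd he (by simp [f])
  · simp only [f, Affine.Point.some.injEq] at he
    obtain ⟨h1, h2⟩ := he
    have hx : x = x' := by linarith
    have hy : y = y' := by
      rw [hx] at h2
      linarith
    subst hx hy
    rfl

theorem rank_zero_of_finite {G : Type} [AddCommGroup G] [Finite G] : Module.finrank ℤ G = 0 := by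
  refine Module.finrank_eq_zero_of_rank_eq_zero ?_
  rw [rank_eq_zero_iff]
  intro x
  refine ⟨(Nat.card G : ℤ), by exact_mod_cast Nat.card_pos.ne', ?_⟩
  rw [natCast_zsmul]
  exact card_nsmul_eq_zero'

end Pool.Agent.V8H12.X49
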