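import Mathlib
import Pool.Agent.V8H12.X49.Base

/-!
# The orders of the Selmer sets
-/

set_option autoImplicit false

namespace Pool.Agent.V8H12.X49

open scoped Classical in
/-- the sets of the prime numbers with indicator vector in the kernel -/
noncomputable def KS (D : ℕ) : Finset (Finset ℕ) :=
  (split D).powerset.filter fun T => (mat D).mulVec (ind D T) = 0

/-- the corank of the matrix -/
noncomputable def cork (D : ℕ) : ℕ := (split D).card - (mat D).rank

theorem KS_card (D : ℕ) : (KS D).card = 2 ^ cork D := by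
  classical
  have h1 : Module.finrank (ZMod 2) (LinearMap.ker (mat D).mulVecLin) = cork D := by
    have h := (mat D).mulVecLin.finrank_range_add_finrank_ker
    rw [Module.finrank_fintype_fun_eq_card, Fintype.card_coe] at h
    unfold cork Matrix.rank
    omega
  have h2 : Nat.card (LinearMap.ker (mat D).mulVecLin) = 2 ^ cork D := by
    rw [Module.natCard_eq_pow_finrank (K := ZMod 2), h1, Nat.card_zmod]
  rw [← h2, Nat.card_eq_fintype_card, ← Finset.card_univ]
  refine Finset.card_bij (fun T hT => ⟨ind D T, ?_⟩) ?_ ?_ ?_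
  · rw [LinearMap.mem_ker, Matrix.mulVecLin_apply]
    exact (Finset.mem_filter.1 hT).2
  · intro T hT
    exact Finset.mem_univ _
  · intro T hT T' hT' h
    have h3 : ind D T = ind D T' := congrArg Subtype.val h
    have hs := Finset.mem_powerset.1 (Finset.mem_filter.1 hT).1
    have hs' := Finset.mem_powerset.1 (Finset.mem_filter.1 hT').1
    have h10 : (1 : ZMod 2) ≠ 0 := by decide
    ext q
    constructor
    · intro hq
      have h4 := congrFun h3 ⟨q, hs hq⟩
      by_contra hn
      unfold ind at h4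
      rw [if_pos hq, if_neg hn] at h4
      exact h10 h4
    · intro hq
      have h4 := congrFun h3 ⟨q, hs' hq⟩
      by_contra hn
      unfold ind at h4
      rw [if_pos hq, if_neg hn] at h4
      exact h10 h4.symm
  · rintro ⟨v, hv⟩ -
    have hv' : (mat D).mulVec v = 0 := by
      rw [LinearMap.mem_ker, Matrix.mulVecLin_apply] at hv
      exact hv
    have he : ind D ((Finset.univ.filter fun i : split D => v i = 1).map
        (Function.Embedding.subtype _)) = v := by
      funext i
      unfold ind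
      have hz : ∀ z : ZMod 2, z ≠ 1 → z = 0 := by decide
      by_cases hi : v i = 1
      · rw [if_pos, hi]
        rw [Finset.mem_map]
        exact ⟨i, Finset.mem_filter.2 ⟨Finset.mem_univ _, hi⟩, rfl⟩
      · rw [if_neg, hz _ hi]
        rw [Finset.mem_map]
        rintro ⟨j, hj, hji⟩
        have : j = i := Subtype.ext hji
        rw [this] at hj
        exact hi (Finset.mem_filter.1 hj).2
    refine ⟨(Finset.univ.filter fun i : split D => v i = 1).map
        (Function.Embedding.subtype _), ?_, Subtype.ext he⟩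
    unfold KS
    rw [Finset.mem_filter, Finset.mem_powerset, he]
    refine ⟨?_, hv'⟩
    intro q hq
    rw [Finset.mem_map] at hq
    obtain ⟨j, -, rfl⟩ := hq
    exact j.2

theorem not_dvd_U {U : ℤ} (hU : IsU U) {q : ℕ} (hq : q.Prime) (hq7 : q ≠ 7) : ¬ (q : ℤ) ∣ U := by
  intro h
  have h1 : q ∣ 7 := by
    have h2 := Int.natAbs_dvd_natAbs.2 h
    rw [Int.natAbs_natCast] at h2
    rcases hU with rfl | rfl | rfl | rfl
    · exact h2.trans (by norm_num)
    · exact h2.trans (by norm_num)
    · exact h2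
    · exact h2
  exact hq7 ((Nat.prime_dvd_prime_iff_eq hq (by norm_num)).1 h1)

theorem mem_T_iff {D : ℕ} (hD : Adm D) {T : Finset ℕ} (hT : T ⊆ D.primeFactors) {U : ℤ}
    (hU : IsU U) {q : ℕ} (hq : q ∈ D.primeFactors) : (q : ℤ) ∣ U * ∏ l ∈ T, (l : ℤ) ↔ q ∈ T := by
  have hqp := Nat.prime_of_mem_primeFactors hq
  have hpp : Prime (q : ℤ) := Nat.prime_iff_prime_int.1 hqp
  constructor
  · intro h
    rcases hpp.dvd_or_dvd h with h1 | h1
    · exact absurd h1 (not_dvd_U hU hqp (by rintro rfl; exact seven_notMem hD hq))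
    · obtain ⟨l, hl, h2⟩ := (hpp.dvd_finsetProd_iff _).1 h1
      have h3 := (Nat.prime_dvd_prime_iff_eq hqp (Nat.prime_of_mem_primeFactors (hT hl))).1
        (Int.natCast_dvd_natCast.1 h2)
      exact h3 ▸ hl
  · intro h
    exact (Finset.dvd_prod_of_mem (fun l : ℕ => (l : ℤ)) h).mul_left U

theorem count {D : ℕ} (hD : Adm D) {η : ℤ} (hη : η = 7 ∨ η = -7) {S : Set ℤ}
    (h1 : ∀ b ∈ S, ∃ (U : ℤ) (T : Finset ℕ), (U = 1 ∨ U = η) ∧ T ⊆ split D ∧
      b = U * ∏ q ∈ T, (q : ℤ) ∧ (mat D).mulVec (ind D T) = 0)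
    (h2 : ∀ (U : ℤ) (T : Finset ℕ), (U = 1 ∨ U = η) → T ⊆ split D →
      (mat D).mulVec (ind D T) = 0 → U * ∏ q ∈ T, (q : ℤ) ∈ S) :
    S.ncard = 2 ^ (1 + cork D) := by
  classical
  have hU : ∀ U : ℤ, (U = 1 ∨ U = η) → IsU U := by
    rintro U (rfl | rfl)
    · exact Or.inl rfl
    · rcases hη with rfl | rfl
      · exact Or.inr (Or.inr (Or.inl rfl))
      · exact Or.inr (Or.inr (Or.inr rfl))
  have hS : S = (((({1, η} : Finset ℤ) ×ˢ KS D).image
      fun x : ℤ × Finset ℕ => x.1 * ∏ q ∈ x.2, (q : ℤ) : Finset ℤ) : Set ℤ) := by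
    ext b
    rw [Finset.mem_coe, Finset.mem_image]
    constructor
    · intro hb
      obtain ⟨U, T, hU1, hT, hbe, hk⟩ := h1 b hb
      refine ⟨(U, T), ?_, hbe.symm⟩
      rw [Finset.mem_product]
      refine ⟨by simpa using hU1, ?_⟩
      exact Finset.mem_filter.2 ⟨Finset.mem_powerset.2 hT, hk⟩
    · rintro ⟨⟨U, T⟩, hx, rfl⟩
      rw [Finset.mem_product] at hx
      have h3 := Finset.mem_filter.1 hx.2
      exact h2 U T (by simpa using hx.1) (Finset.mem_powerset.1 h3.1) h3.2
  rw [hS, Set.ncard_coe_finset, Finset.card_image_of_injOn, Finset.card_product, KS_card, pow_add,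
    pow_one]
  · congr 1
    refine Finset.card_pair ?_
    rcases hη with rfl | rfl <;> norm_num
  · rintro ⟨U, T⟩ hx ⟨U', T'⟩ hx' he
    rw [Finset.mem_coe, Finset.mem_product] at hx hx'
    have hU1 := hU U (by simpa using hx.1)
    have hU2 := hU U' (by simpa using hx'.1)
    have hT := (Finset.mem_powerset.1 (Finset.mem_filter.1 hx.2).1).trans (split_sub D)
    have hT' := (Finset.mem_powerset.1 (Finset.mem_filter.1 hx'.2).1).trans (split_sub D)
    simp only at he hT hT'
    have hTT : T = T' := by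
      ext q
      constructor
      · intro hq
        rw [← mem_T_iff hD hT' hU2 (hT hq), ← he]
        exact (mem_T_iff hD hT hU1 (hT hq)).2 hq
      · intro hq
        rw [← mem_T_iff hD hT hU1 (hT' hq), he]
        exact (mem_T_iff hD hT' hU2 (hT' hq)).2 hq
    subst hTT
    have h3 := mul_right_cancel₀ (prodT_pos hT).ne' he
    rw [h3]

/-- **The order of the first Selmer set** -/
theorem ncard1 {D : ℕ} (hD : Adm D) :
    (SelSet (21 * D) (112 * (D : ℤ) ^ 2)).ncard = 2 ^ (1 + cork D) :=
  count hD (Or.inl rfl) (fun b hb => upper1 hD hb) fun U T hU hT hk => mem1 hD hT hk hU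

/-- **The order of the second Selmer set** -/
theorem ncard2 {D : ℕ} (hD : Adm D) :
    (SelSet (-42 * D) (-7 * (D : ℤ) ^ 2)).ncard = 2 ^ (1 + cork D) :=
  count hD (Or.inr rfl) (fun b hb => upper2 hD hb) fun U T hU hT hk => mem2 hD hT hk hU

end Pool.Agent.V8H12.X49
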